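import Pool.Agent.H70.TD.Weak

/-!
# The inequality without error: sums of independent copies
-/

set_option autoImplicit false

namespace Pool.Agent.H70.TD

open MvPolynomial Pool.Agent.Y148.OD

variable {Ω : Type} [Field Ω] {τ : Type} {A : Type} [AddCommGroup A]

/-- Families of pairs of zero-cycles which are equivalent modulo zero-cycles on `D`. -/
def Fam (K : Subfield Ω) (V D : Set (τ → Ω)) (cl : (τ → Ω) → A) (N R T Y : ℕ) : Prop :=
  ∀ L : Subfield Ω, K ≤ L → Countable L → ∃ (n m a b : ℕ) (z : Fin n → τ → Ω) (z' : Fin m → τ → Ω)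
    (x : Fin a → τ → Ω) (y : Fin b → τ → Ω), n + m = N ∧ RelD V D cl z z' x y ∧
    (R : ℕ∞) ≤ rk L ((coords z ∪ coords z') ∪ (coords x ∪ coords y)) ∧
    (T : ℕ∞) ≤ rk L (coords z ∪ coords z') ∧ rk K (coords x ∪ coords y) ≤ (Y : ℕ∞)

theorem RelD.append {V D : Set (τ → Ω)} {cl : (τ → Ω) → A} {n m a b n₂ m₂ a₂ b₂ : ℕ}
    {z : Fin n → τ → Ω} {z' : Fin m → τ → Ω} {x : Fin a → τ → Ω} {y : Fin b → τ → Ω}
    {z₂ : Fin n₂ → τ → Ω} {z₂' : Fin m₂ → τ → Ω} {x₂ : Fin a₂ → τ → Ω} {y₂ : Fin b₂ → τ → Ω}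
    (h : RelD V D cl z z' x y) (h₂ : RelD V D cl z₂ z₂' x₂ y₂) :
    RelD V D cl (Fin.append z z₂) (Fin.append z' z₂') (Fin.append x x₂) (Fin.append y y₂) := by
  obtain ⟨hz, hz', hx, hy, c, d, w, w', hw, hw', hcard, hsum⟩ := h
  obtain ⟨kz, kz', kx, ky, c₂, d₂, v, v', kw, kw', kcard, ksum⟩ := h₂
  refine ⟨append_mem hz kz, append_mem hz' kz', append_mem hx kx, append_mem hy ky, c + c₂, d + d₂,
    Fin.append w v, Fin.append w' v', append_mem hw kw, append_mem hw' kw', by omega, ?_⟩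
  simp only [sum_append]
  calc _ = (∑ i, cl (z i) + (∑ i, cl (y i) + ∑ i, cl (w' i))) +
        (∑ i, cl (z₂ i) + (∑ i, cl (y₂ i) + ∑ i, cl (v' i))) := by abel
    _ = (∑ i, cl (z' i) + (∑ i, cl (x i) + ∑ i, cl (w i))) +
        (∑ i, cl (z₂' i) + (∑ i, cl (x₂ i) + ∑ i, cl (v i))) := by rw [hsum, ksum]
    _ = _ := by abel

theorem Fam.add [Fintype τ] {K : Subfield Ω} {V D : Set (τ → Ω)} {cl : (τ → Ω) → A}
    {N R T Y N₂ R₂ T₂ Y₂ : ℕ} (h : Fam K V D cl N R T Y) (h₂ : Fam K V D cl N₂ R₂ T₂ Y₂) :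
    Fam K V D cl (N + N₂) (R + R₂) (T + T₂) (Y + Y₂) := by
  intro L hKL hL
  obtain ⟨n, m, a, b, z, z', x, y, hN, hrel, hR, hT, hY⟩ := h L hKL hL
  set S := (coords z ∪ coords z') ∪ (coords x ∪ coords y) with hS
  have hSc : S.Countable := ((countable_coords z).union (countable_coords z')).union
    ((countable_coords x).union (countable_coords y))
  obtain ⟨n₂, m₂, a₂, b₂, z₂, z₂', x₂, y₂, kN, krel, kR, kT, kY⟩ := h₂ (adj L S)
    (hKL.trans (le_adj_left _ _)) (countable_adj hSc)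
  refine ⟨n + n₂, m + m₂, a + a₂, b + b₂, _, _, _, _, by omega, hrel.append krel, ?_, ?_, ?_⟩
  · simp only [coords_append]
    have e1 : coords z ∪ coords z₂ ∪ (coords z' ∪ coords z₂') ∪
        (coords x ∪ coords x₂ ∪ (coords y ∪ coords y₂)) =
        S ∪ ((coords z₂ ∪ coords z₂') ∪ (coords x₂ ∪ coords y₂)) := by
      rw [hS]
      ext v
      simp only [Set.mem_union]
      tauto
    rw [e1]
    exact rk_add_le hR kR
  · simp only [coords_append]
    have e1 : coords z ∪ coords z₂ ∪ (coords z' ∪ coords z₂') =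
        (coords z ∪ coords z') ∪ (coords z₂ ∪ coords z₂') := by
      ext v
      simp only [Set.mem_union]
      tauto
    rw [e1]
    refine rk_add_le hT (kT.trans (rk_anti ?_ _))
    exact adj_le (le_adj_left _ _) (Set.subset_union_left.trans (subset_adj L S))
  · simp only [coords_append]
    have e1 : coords x ∪ coords x₂ ∪ (coords y ∪ coords y₂) =
        (coords x ∪ coords y) ∪ (coords x₂ ∪ coords y₂) := by
      ext v
      simp only [Set.mem_union]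
      tauto
    rw [e1]
    refine (rk_union_le _ _ _).trans ((add_le_add hY kY).trans ?_)
    exact_mod_cast le_rfl

omit [Field Ω] in
theorem coords_elim0 : coords (Fin.elim0 : Fin 0 → τ → Ω) = ∅ := by
  ext c
  constructor
  · rintro ⟨i, -⟩
    exact i.elim0
  · intro h
    exact absurd h (Set.notMem_empty c)

theorem Fam.mul [Fintype τ] {K : Subfield Ω} {V D : Set (τ → Ω)} {cl : (τ → Ω) → A}
    {N R T Y : ℕ} (h : Fam K V D cl N R T Y) (s : ℕ) :
    Fam K V D cl (N * s) (R * s) (T * s) (Y * s) := by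
  induction s with
  | zero =>
    intro L hKL hL
    refine ⟨0, 0, 0, 0, Fin.elim0, Fin.elim0, Fin.elim0, Fin.elim0, by simp,
      ⟨fun i => i.elim0, fun i => i.elim0, fun i => i.elim0, fun i => i.elim0, 0, 0, Fin.elim0,
        Fin.elim0, fun i => i.elim0, fun i => i.elim0, rfl, rfl⟩, by simp, by simp, ?_⟩
    simp [coords_elim0, rk_empty]
  | succ s ih => exact ih.add h

/-- a relation gives a family of relations: generic copies -/
theorem fam_of_rel [IsAlgClosed Ω] [Uncountable Ω] [Fintype τ] {k K : Subfield Ω}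
    {V D : Set (τ → Ω)} {cl : (τ → Ω) → A} (hc : Cls k V cl) (hk : k ≤ K)
    (hD : ∀ v v' : τ → Ω, v ∈ D → v' ≠ 0 →
      (∀ F : MvPolynomial τ K, aeval v F = 0 → aeval v' F = 0) → v' ∈ D)
    (hDV : D ⊆ V) {n m a b R T Y : ℕ} {z : Fin n → τ → Ω} {z' : Fin m → τ → Ω} {x : Fin a → τ → Ω}
    {y : Fin b → τ → Ω} (h : RelD V D cl z z' x y)
    (hR : (R : ℕ∞) ≤ rk K ((coords z ∪ coords z') ∪ (coords x ∪ coords y)))
    (hT : (T : ℕ∞) ≤ rk K (coords z ∪ coords z')) (hY : rk K (coords x ∪ coords y) ≤ (Y : ℕ∞)) :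
    Fam K V D cl (n + m) R T Y := by
  intro L hKL hL
  obtain ⟨hz, hz', hx, hy, c, d, w, w', hw, hw', hcard, hsum⟩ := h
  set P : Fin n ⊕ (Fin b ⊕ Fin d) → τ → Ω := Sum.elim z (Sum.elim y w') with hP
  set Q : Fin m ⊕ (Fin a ⊕ Fin c) → τ → Ω := Sum.elim z' (Sum.elim x w) with hQ
  have hPV : ∀ i, P i ∈ V := by
    rintro (i | i | i)
    · exact hz i
    · exact hy i
    · exact hDV (hw' i)
  have hQV : ∀ i, Q i ∈ V := by
    rintro (i | i | i)
    · exact hz' i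
    · exact hx i
    · exact hDV (hw i)
  have hPQ : ∑ i, cl (P i) = ∑ i, cl (Q i) := by
    rw [Fintype.sum_sum_type, Fintype.sum_sum_type, Fintype.sum_sum_type, Fintype.sum_sum_type]
    simp only [hP, hQ, Sum.elim_inl, Sum.elim_inr]
    exact hsum
  have hcd : Fintype.card (Fin n ⊕ (Fin b ⊕ Fin d)) = Fintype.card (Fin m ⊕ (Fin a ⊕ Fin c)) := by
    simp only [Fintype.card_sum, Fintype.card_fin]
    exact hcard
  obtain ⟨W, hW1, hW2⟩ := generic_copy hKL hL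
    (fun p : ((Fin n ⊕ (Fin b ⊕ Fin d)) ⊕ (Fin m ⊕ (Fin a ⊕ Fin c))) × τ =>
      Sum.elim P Q p.1 p.2)
  set P' : Fin n ⊕ (Fin b ⊕ Fin d) → τ → Ω := fun i e => W (Sum.inl i, e) with hP'
  set Q' : Fin m ⊕ (Fin a ⊕ Fin c) → τ → Ω := fun i e => W (Sum.inr i, e) with hQ'
  have hWPQ : W = fun p => Sum.elim P' Q' p.1 p.2 := by
    funext p
    obtain ⟨i | i, e⟩ := p <;> rfl
  have hcopy : ∀ G : MvPolynomial (((Fin n ⊕ (Fin b ⊕ Fin d)) ⊕ (Fin m ⊕ (Fin a ⊕ Fin c))) × τ) K,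
      aeval (fun p => Sum.elim P Q p.1 p.2) G = 0 ↔
        aeval (fun p => Sum.elim P' Q' p.1 p.2) G = 0 := by
    intro G
    rw [← hWPQ]
    exact hW1 G
  obtain ⟨hP'V, hQ'V, hP'Q'⟩ := rel_copy hc hk hcd hPV hQV hPQ hcopy
  have hV0 : ∀ v ∈ V, v ≠ 0 := hc.ne_zero
  have hmem : ∀ j : (Fin n ⊕ (Fin b ⊕ Fin d)) ⊕ (Fin m ⊕ (Fin a ⊕ Fin c)),
      Sum.elim P Q j ∈ D → (fun e => W (j, e)) ≠ 0 → (fun e => W (j, e)) ∈ D := by
    intro j hj h0
    refine hD _ _ hj h0 fun F hF => ?_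
    have h2 := (hW1 (rename (fun e => (j, e)) F)).mp (by
      rw [aeval_rename]
      exact hF)
    rw [aeval_rename] at h2
    exact h2
  have hrk : ∀ (ρ : Type) [Finite ρ]
      (s : ρ → ((Fin n ⊕ (Fin b ⊕ Fin d)) ⊕ (Fin m ⊕ (Fin a ⊕ Fin c))) × τ),
      rk L (Set.range fun q => W (s q)) =
        rk K (Set.range fun q => Sum.elim P Q (s q).1 (s q).2) ∧
      rk K (Set.range fun q => W (s q)) =
        rk K (Set.range fun q => Sum.elim P Q (s q).1 (s q).2) := hW2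
  -- the index maps
  have e1 : (coords (fun i => P' (Sum.inl i)) ∪ coords (fun i => Q' (Sum.inl i))) =
      Set.range fun p : (Fin n ⊕ Fin m) × τ => W (Sum.map Sum.inl Sum.inl p.1, p.2) := by
    rw [← coords_sum_elim, coords_eq_range]
    congr 1
    funext p
    obtain ⟨i | i, e⟩ := p <;> rfl
  have e2 : coords z ∪ coords z' = Set.range fun p : (Fin n ⊕ Fin m) × τ =>
      Sum.elim P Q (Sum.map Sum.inl Sum.inl p.1) p.2 := by
    rw [← coords_sum_elim, coords_eq_range]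
    congr 1
    funext p
    obtain ⟨i | i, e⟩ := p <;> rfl
  have e3 : (coords (fun i => Q' (Sum.inr (Sum.inl i))) ∪
      coords (fun i => P' (Sum.inr (Sum.inl i)))) =
      Set.range fun p : (Fin a ⊕ Fin b) × τ =>
        W (Sum.elim (fun i => Sum.inr (Sum.inr (Sum.inl i))) (fun i => Sum.inl (Sum.inr (Sum.inl i)))
          p.1, p.2) := by
    rw [← coords_sum_elim, coords_eq_range]
    congr 1
    funext p
    obtain ⟨i | i, e⟩ := p <;> rfl
  have e4 : coords x ∪ coords y = Set.range fun p : (Fin a ⊕ Fin b) × τ =>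
      Sum.elim P Q (Sum.elim (fun i => Sum.inr (Sum.inr (Sum.inl i)))
        (fun i => Sum.inl (Sum.inr (Sum.inl i))) p.1) p.2 := by
    rw [← coords_sum_elim, coords_eq_range]
    congr 1
    funext p
    obtain ⟨i | i, e⟩ := p <;> rfl
  have hun : ∀ {ρ ρ' : Type} (f : ρ → Ω) (g : ρ' → Ω),
      Set.range f ∪ Set.range g = Set.range (Sum.elim f g) := fun f g => (Set.Sum.elim_range f g).symm
  refine ⟨n, m, a, b, fun i => P' (Sum.inl i), fun i => Q' (Sum.inl i),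
    fun i => Q' (Sum.inr (Sum.inl i)), fun i => P' (Sum.inr (Sum.inl i)), rfl,
    ⟨fun i => hP'V _, fun i => hQ'V _, fun i => hQ'V _, fun i => hP'V _, c, d,
      fun i => Q' (Sum.inr (Sum.inr i)), fun i => P' (Sum.inr (Sum.inr i)), fun i => ?_, fun i => ?_,
      hcard, ?_⟩, ?_, ?_, ?_⟩
  · exact hmem (Sum.inr (Sum.inr (Sum.inr i))) (hw i) (hV0 _ (hQ'V _))
  · exact hmem (Sum.inl (Sum.inr (Sum.inr i))) (hw' i) (hV0 _ (hP'V _))
  · have h1 := hP'Q'
    rw [Fintype.sum_sum_type, Fintype.sum_sum_type, Fintype.sum_sum_type,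
      Fintype.sum_sum_type] at h1
    exact h1
  · refine hR.trans (le_of_eq ?_)
    rw [e1, e2, e3, e4, hun, hun]
    have h1 := (hrk (((Fin n ⊕ Fin m) × τ) ⊕ ((Fin a ⊕ Fin b) × τ)) (Sum.elim
      (fun p => (Sum.map Sum.inl Sum.inl p.1, p.2))
      (fun p => (Sum.elim (fun i => Sum.inr (Sum.inr (Sum.inl i)))
        (fun i => Sum.inl (Sum.inr (Sum.inl i))) p.1, p.2)))).1
    have f1 : ∀ (g : ((Fin n ⊕ (Fin b ⊕ Fin d)) ⊕ (Fin m ⊕ (Fin a ⊕ Fin c))) × τ → Ω),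
        (Sum.elim (fun p : (Fin n ⊕ Fin m) × τ => g (Sum.map Sum.inl Sum.inl p.1, p.2))
          (fun p : (Fin a ⊕ Fin b) × τ => g (Sum.elim (fun i => Sum.inr (Sum.inr (Sum.inl i)))
            (fun i => Sum.inl (Sum.inr (Sum.inl i))) p.1, p.2))) =
        fun q => g (Sum.elim
          (fun p : (Fin n ⊕ Fin m) × τ => (Sum.map Sum.inl Sum.inl p.1, p.2))
          (fun p : (Fin a ⊕ Fin b) × τ => (Sum.elim (fun i => Sum.inr (Sum.inr (Sum.inl i)))
            (fun i => Sum.inl (Sum.inr (Sum.inl i))) p.1, p.2)) q) := by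
      intro g
      funext q
      obtain q | q := q <;> rfl
    rw [f1 W, h1]
    congr 2
    exact f1 fun p => Sum.elim P Q p.1 p.2
  · refine hT.trans (le_of_eq ?_)
    rw [e1, e2]
    exact (hrk ((Fin n ⊕ Fin m) × τ) (fun p => (Sum.map Sum.inl Sum.inl p.1, p.2))).1.symm
  · refine le_trans (le_of_eq ?_) hY
    rw [e3, e4]
    exact (hrk ((Fin a ⊕ Fin b) × τ) (fun p => (Sum.elim (fun i => Sum.inr (Sum.inr (Sum.inl i)))
      (fun i => Sum.inl (Sum.inr (Sum.inl i))) p.1, p.2))).2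

/-- **The inequality.** -/
theorem main_abs [IsAlgClosed Ω] [Uncountable Ω] [Fintype τ] {k K : Subfield Ω}
    {V D : Set (τ → Ω)} {cl : (τ → Ω) → A} (hc : Cls k V cl) (hk : k ≤ K) (hKc : Countable K)
    (hD : ∀ v v' : τ → Ω, v ∈ D → v' ≠ 0 →
      (∀ F : MvPolynomial τ K, aeval v F = 0 → aeval v' F = 0) → v' ∈ D)
    (hDV : D ⊆ V) {K₀ : Subfield Ω} (hK₀ : Countable K₀) {q : ℕ}
    (hpair : ∀ (n : ℕ) (Z Y : Fin n → τ → Ω), (∀ i, Z i ∈ V) → (∀ i, Y i ∈ V) →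
      ∑ i, cl (Z i) = ∑ i, cl (Y i) → rk K₀ (coords Z ∪ coords Y) ≤ ((4 * n : ℕ) : ℕ∞))
    (hB : Bdd K₀ V D cl q) {n m a b : ℕ} {z : Fin n → τ → Ω} {z' : Fin m → τ → Ω}
    {x : Fin a → τ → Ω} {y : Fin b → τ → Ω} (h : RelD V D cl z z' x y) :
    rk K (coords z ∪ coords z') + rk (adj K (coords x ∪ coords y)) (coords z ∪ coords z') ≤
      ((4 * (n + m) : ℕ) : ℕ∞) := by
  have hf : (coords z ∪ coords z').Finite := (finite_coords z).union (finite_coords z')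
  have hg : (coords x ∪ coords y).Finite := (finite_coords x).union (finite_coords y)
  obtain ⟨T, hT⟩ := exists_nat K hf
  obtain ⟨Y, hY⟩ := exists_nat K hg
  obtain ⟨E, hE⟩ := exists_nat (adj K (coords x ∪ coords y)) hf
  have hR : ((Y + E : ℕ) : ℕ∞) ≤ rk K ((coords z ∪ coords z') ∪ (coords x ∪ coords y)) := by
    rw [rk_union K (coords z ∪ coords z'), ← hY, ← hE]
    exact_mod_cast le_rfl
  have hfam := (fam_of_rel hc hk hD hDV h hR hT.le hY.ge).mul (2 * q + 1)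
  set L := adj K (K₀ : Set Ω) with hL
  have hLc : Countable L := countable_adj (Set.countable_coe_iff.mp hK₀)
  have hK₀L : K₀ ≤ L := fun v hv => subset_adj _ _ hv
  have hKL : K ≤ L := le_adj_left _ _
  obtain ⟨n', m', a', b', z₂, z₂', x₂, y₂, hN, hrel, kR, kT, kY⟩ := hfam L hKL hLc
  have hw := weak hc (hk.trans hKL) hLc (fun Z Y hZ hY hs =>
    (rk_anti hK₀L _).trans (hpair (n' + m') Z Y hZ hY hs)) (hB.mono hK₀L) hrel
  have hf₂ : (coords z₂ ∪ coords z₂').Finite := (finite_coords z₂).union (finite_coords z₂')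
  have hg₂ : (coords x₂ ∪ coords y₂).Finite := (finite_coords x₂).union (finite_coords y₂)
  obtain ⟨T₂, hT₂⟩ := exists_nat L hf₂
  obtain ⟨Y₂, hY₂⟩ := exists_nat L hg₂
  obtain ⟨E₂, hE₂⟩ := exists_nat (adj L (coords x₂ ∪ coords y₂)) hf₂
  have kY' : rk L (coords x₂ ∪ coords y₂) ≤ ((Y * (2 * q + 1) : ℕ) : ℕ∞) := (rk_anti hKL _).trans kY
  rw [rk_union L (coords z₂ ∪ coords z₂'), ← hY₂, ← hE₂] at kR
  rw [← hY₂] at kY'
  rw [← hT₂] at kT
  rw [← hT₂, ← hE₂, hN] at hw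
  rw [← hT, ← hE]
  norm_cast at kR kY' kT hw ⊢
  by_contra hcon
  rw [not_le] at hcon
  have h1 : (4 * (n + m) + 1) * (2 * q + 1) ≤ (T + E) * (2 * q + 1) := Nat.mul_le_mul_right _ hcon
  nlinarith

end Pool.Agent.H70.TD
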