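import Pool.Agent.H70.TD.Amp
import Pool.Agent.H15.TD.Tfae

/-!
# The closure of a point over a subfield
-/

set_option autoImplicit false

namespace Pool.Agent.H70.TD

open MvPolynomial Pool.Agent.Y148.OD Pool.Agent.H15.TD

variable {r : ℕ} {X : Set (Pt r)}

/-- `X` is the set of the common zeros of homogeneous polynomials with coefficients in `K`. -/
def DefinedOver (K : Subfield ℂ) (X : Set (Pt r)) : Prop :=
  ∃ S : Set (MvPolynomial (Fin (r + 1)) ℂ),
    (∀ P ∈ S, (∃ d : ℕ, P.IsHomogeneous d) ∧ ∀ m, P.coeff m ∈ K) ∧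
    ∀ x : Pt r, x ∈ X ↔ ∀ P ∈ S, eval x.rep P = 0

theorem aeval_eq {σ : Type} {K : Subfield ℂ} (v : σ → ℂ) (Q : MvPolynomial σ K) :
    aeval v Q = eval v (MvPolynomial.map (algebraMap K ℂ) Q) := by
  rw [eval_map, aeval_def]

theorem closed_over {K : Subfield ℂ} (hX : DefinedOver K X) :
    ∃ S : Set (MvPolynomial (Fin (r + 1)) K), (∀ P ∈ S, ∃ d : ℕ, P.IsHomogeneous d) ∧
      ∀ v : Fin (r + 1) → ℂ, v ∈ cone X ↔ v ≠ 0 ∧ ∀ P ∈ S, aeval v P = 0 := by
  obtain ⟨S, hS, hXS⟩ := hX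
  refine ⟨{Q | MvPolynomial.map (algebraMap K ℂ) Q ∈ S}, fun Q hQ => ?_, fun v => ?_⟩
  · obtain ⟨d, hd⟩ := (hS _ hQ).1
    refine ⟨d, ?_⟩
    exact IsHomogeneous.of_map (algebraMap K ℂ).injective hd
  constructor
  · rintro ⟨hv, hvX⟩
    refine ⟨hv, fun Q hQ => ?_⟩
    rw [aeval_eq]
    obtain ⟨d, hd⟩ := (hS _ hQ).1
    exact (eval_rep_iff hd v hv).mp ((hXS _).mp hvX _ hQ)
  · rintro ⟨hv, hvS⟩
    refine ⟨hv, (hXS _).mpr fun P hP => ?_⟩
    obtain ⟨d, hd⟩ := (hS P hP).1
    rw [eval_rep_iff hd v hv]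
    obtain ⟨Q, rfl⟩ := exists_lift (hS P hP).2
    rw [← aeval_eq]
    exact hvS Q hP

theorem setup_over {K : Subfield ℂ} (hK : Countable K) {N : ℕ} (hX : IsVariety X N)
    (hXK : DefinedOver K X) : Setup K (cone X) (N + 1) := by
  obtain ⟨k, hk⟩ := setup_cone hX
  obtain ⟨S, -, hS⟩ := closed_over hXK
  exact ⟨hK, ⟨S, hS⟩, hk.prime, hk.upper, hk.lower⟩

/-- The cone over the closure over `K` of the point with the coordinate vector `u`. -/
def clo (K : Subfield ℂ) (u : Fin (r + 1) → ℂ) : Set (Fin (r + 1) → ℂ) :=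
  {v | v ≠ 0 ∧ ∀ (F : MvPolynomial (Fin (r + 1)) K) (d : ℕ), F.IsHomogeneous d →
    aeval u F = 0 → aeval v F = 0}

theorem clo_closed (K : Subfield ℂ) (u : Fin (r + 1) → ℂ) :
    ∃ S : Set (MvPolynomial (Fin (r + 1)) K),
      ∀ v : Fin (r + 1) → ℂ, v ∈ clo K u ↔ v ≠ 0 ∧ ∀ P ∈ S, aeval v P = 0 :=
  ⟨{F | (∃ d : ℕ, F.IsHomogeneous d) ∧ aeval u F = 0}, fun _ =>
    ⟨fun h => ⟨h.1, fun _ ⟨⟨d, hd⟩, h0⟩ => h.2 _ d hd h0⟩,
      fun h => ⟨h.1, fun F d hd h0 => h.2 F ⟨⟨d, hd⟩, h0⟩⟩⟩⟩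

theorem aeval_smul_hom {K : Subfield ℂ} {F : MvPolynomial (Fin (r + 1)) K} {d : ℕ}
    (hF : F.IsHomogeneous d) (c : ℂ) (v : Fin (r + 1) → ℂ) :
    aeval (c • v) F = c ^ d * aeval v F := by
  rw [aeval_eq, aeval_eq]
  exact eval_smul_hom (hF.map _) c v

theorem clo_smul {K : Subfield ℂ} {u v : Fin (r + 1) → ℂ} {c : ℂ} (hc : c ≠ 0)
    (hv : v ∈ clo K u) : c • v ∈ clo K u := by
  refine ⟨smul_ne_zero hc hv.1, fun F d hF h0 => ?_⟩
  rw [aeval_smul_hom hF, hv.2 F d hF h0, mul_zero]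

theorem mem_clo {K : Subfield ℂ} {u : Fin (r + 1) → ℂ} (hu : u ≠ 0) : u ∈ clo K u :=
  ⟨hu, fun _ _ _ h => h⟩

theorem clo_sub {K : Subfield ℂ} (hXK : DefinedOver K X) {u : Fin (r + 1) → ℂ} (hu : u ∈ cone X) :
    clo K u ⊆ cone X := by
  obtain ⟨S, hS, hX⟩ := closed_over hXK
  intro v hv
  rw [hX]
  refine ⟨hv.1, fun P hP => ?_⟩
  obtain ⟨d, hd⟩ := hS P hP
  exact hv.2 P d hd (((hX u).mp hu).2 P hP)

/-- the homogeneous components of a polynomial which vanishes at a generic multiple of `u` -/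
theorem comp_zero {K : Subfield ℂ} {u : Fin (r + 1) → ℂ} {c : ℂ}
    (hc : Transcendental (adj K (Set.range u)) c) {F : MvPolynomial (Fin (r + 1)) K}
    (h : aeval (c • u) F = 0) (d : ℕ) : aeval u (homogeneousComponent d F) = 0 := by
  classical
  set L := adj K (Set.range u) with hL
  have hmem : ∀ G : MvPolynomial (Fin (r + 1)) K, aeval u G ∈ L := by
    intro G
    induction G using MvPolynomial.induction_on with
    | C a =>
      rw [aeval_C]
      exact le_adj_left K _ a.2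
    | add p q hp hq =>
      rw [map_add]
      exact add_mem hp hq
    | mul_X p i hp =>
      rw [map_mul, aeval_X]
      exact mul_mem hp (subset_adj _ _ ⟨i, rfl⟩)
  set P : Polynomial L := ∑ i ∈ Finset.range (F.totalDegree + 1),
    Polynomial.C (⟨aeval u (homogeneousComponent i F), hmem _⟩ : L) * Polynomial.X ^ i with hP
  have h1 : Polynomial.aeval c P = 0 := by
    rw [hP, map_sum, ← h]
    conv_rhs => rw [← sum_homogeneousComponent F]
    rw [map_sum]
    refine Finset.sum_congr rfl fun i _ => ?_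
    rw [aeval_smul_hom (homogeneousComponent_isHomogeneous i F), map_mul, map_pow,
      Polynomial.aeval_C, Polynomial.aeval_X, mul_comm]
    rfl
  have h2 : P = 0 := by
    by_contra h0
    exact hc ⟨P, h0, h1⟩
  by_cases hd : d ∈ Finset.range (F.totalDegree + 1)
  · have h3 : P.coeff d = (⟨aeval u (homogeneousComponent d F), hmem _⟩ : L) := by
      rw [hP, Polynomial.finsetSum_coeff]
      rw [Finset.sum_eq_single d]
      · rw [Polynomial.coeff_C_mul, Polynomial.coeff_X_pow, if_pos rfl, mul_one]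
      · intro i _ hi
        rw [Polynomial.coeff_C_mul, Polynomial.coeff_X_pow, if_neg (Ne.symm hi), mul_zero]
      · intro h4
        exact absurd hd h4
    rw [h2, Polynomial.coeff_zero] at h3
    exact (congrArg Subtype.val h3).symm
  · rw [homogeneousComponent_eq_zero, map_zero]
    rw [Finset.mem_range] at hd
    omega

/-- the points of the closure have at most the transcendence degree of the point -/
theorem rk_clo {K : Subfield ℂ} (hK : Countable K) {w : Pt r} {u v : Fin (r + 1) → ℂ} (hu : u ≠ 0)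
    (huw : Projectivization.mk ℂ u hu = w) (hv : v ∈ clo K u) {t : ℕ}
    (hw : rk K (ratios fun _ : Unit => w) ≤ (t : ℕ∞)) : rk K (Set.range v) ≤ ((t + 1 : ℕ) : ℕ∞) := by
  have := uncountable_complex
  have hLc : Countable (adj K (Set.range u)) := countable_adj (Set.countable_range u)
  obtain ⟨c, hc⟩ := Pool.Agent.Y141.OD.exists_indep (adj K (Set.range u)) hLc Unit
  have hct : Transcendental (adj K (Set.range u)) (c ()) := algebraicIndependent_unique_type_iff.mp hc
  have hc0 : c () ≠ 0 := hc.ne_zero ()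
  have h1 : rk K (Set.range v) ≤ rk K (Set.range (c () • u)) := by
    refine Pool.Agent.Y141.OD.rk_le K K le_rfl _ _ fun F hF => ?_
    conv_lhs => rw [← sum_homogeneousComponent F]
    rw [map_sum]
    exact Finset.sum_eq_zero fun d _ => hv.2 _ d (homogeneousComponent_isHomogeneous d F)
      (comp_zero hct hF d)
  have h2 := rk_coords_le_ratios (x := fun _ : Unit => w) (v := fun _ : Unit => c () • u)
    (fun _ => ⟨smul_ne_zero hc0 hu, by rw [mk_smul u hu _ hc0, huw]⟩) K
  have h3 : coords (fun _ : Unit => c () • u) = Set.range (c () • u) := by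
    ext e
    constructor
    · rintro ⟨i, a, ha⟩
      exact ⟨a, ha.symm⟩
    · rintro ⟨a, ha⟩
      exact ⟨(), a, ha.symm⟩
  rw [h3] at h2
  refine h1.trans (h2.trans ((add_le_add hw le_rfl).trans ?_))
  rw [Fintype.card_unit]
  exact_mod_cast le_rfl

/-- Zero-cycles on finitely many curves over `K` are bounded: the zero-cycles on the union of the
closures of finitely many points of transcendence degree at most one. -/
theorem bdd_clo {K : Subfield ℂ} (hs : Setup K (cone X) 3) (hXK : DefinedOver K X) {M : ℕ}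
    {w : Fin M → X} (hw : ∀ i, rk K (ratios fun _ : Unit => (w i : Pt r)) ≤ 1) :
    ∃ (k' : Subfield ℂ) (q : ℕ), Countable k' ∧ K ≤ k' ∧
      Bdd k' (cone X) {v | ∃ i, v ∈ clo K (w i : Pt r).rep} (cl X) q := by
  classical
  have := uncountable_complex
  have hc : Cls K (cone X) (cl X) := cls_cone stmStab hs
  have key : ∀ i, ∃ (k' : Subfield ℂ) (q : ℕ), Countable k' ∧ K ≤ k' ∧
      Bdd k' (cone X) (clo K (w i : Pt r).rep) (cl X) q := by
    intro i
    have hsub : clo K (w i : Pt r).rep ⊆ cone X := clo_sub hXK (rep_mem_cone (w i).2)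
    obtain ⟨k', N, E, m, hk'c, hk'a, hkk', hset, hEW, hEsm, hEcov⟩ := stmComp ℂ (Fin (r + 1))
      (clo K (w i : Pt r).rep) K hs.countable (clo_closed K _) (fun c v hc0 hv => clo_smul hc0 hv)
    have hs' : Setup k' (cone X) 3 := hs.mono hkk' hk'c
    have hc' : Cls k' (cone X) (cl X) := hc.mono hkk'
    have hm : ∀ j, m j ≤ 2 := by
      intro j
      obtain ⟨v, hv, hvr⟩ := (hset j).lower k' hk'c
      have h1 := rk_clo hs.countable (w := (w i : Pt r)) (w i : Pt r).rep_nonzero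
        (Projectivization.mk_rep _) (hEW j hv) (t := 1) (hw i)
      have h2 : ((m j : ℕ) : ℕ∞) ≤ ((1 + 1 : ℕ) : ℕ∞) := hvr.trans ((rk_anti hkk' _).trans h1)
      exact_mod_cast h2
    have hb : ∀ j, ∃ q, Bdd k' (cone X) (E j) (cl X) q := by
      intro j
      have hEX : E j ⊆ cone X := (hEW j).trans hsub
      by_cases hm1 : m j ≤ 1
      · refine ⟨0, bdd_of_rk_le_one hk'c hc' hEX (hEsm j) fun v hv => ?_⟩
        exact (((hset j).point le_rfl hk'c).1 v hv).trans (by exact_mod_cast hm1)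
      · have hm2 : m j = 2 := by
          have := hm j
          omega
        have hE2 : Setup k' (E j) 2 := hm2 ▸ hset j
        obtain ⟨p, hp⟩ := stmCurve ℂ (Fin (r + 1)) (cone X) (E j) k' hk'c hk'a hs'.closed
          hc'.smul_mem hEX hE2 (hEsm j) (B X) (cl X) hc'.smul_cl (fun n x y h => cl_eq_of_rat x y h)
        exact ⟨2 * p, bdd_of_genMove hc' hEX hE2 (hEsm j) hp⟩
    choose q hq using hb
    exact ⟨k', ∑ j, q j, hk'c, hkk', bdd_union hq hEcov⟩
  choose k' q hk'c hkk' hB using key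
  refine ⟨adj K (⋃ i, (k' i : Set ℂ)), ∑ i, q i, ?_, le_adj_left _ _, ?_⟩
  · have := hs.countable
    exact countable_adj (Set.countable_iUnion fun i => Set.countable_coe_iff.mp (hk'c i))
  · refine bdd_union (fun i => (hB i).mono fun v hv => subset_adj _ _ (Set.mem_iUnion.mpr ⟨i, hv⟩))
      fun v hv => hv

end Pool.Agent.H70.TD
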