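import Pool.Graph.R_pool_sql_team_seeded_1acbe0a2.Y148.OD.PairTrans

/-!
# Generic copies of finite families, and the rank of zero-cycles modulo a curve: abstract part
-/

set_option autoImplicit false

namespace Pool.Agent.H70.TD

open MvPolynomial Pool.Agent.Y148.OD

variable {Ω : Type} [Field Ω] {τ : Type} {A : Type} [AddCommGroup A]

/-- the rank of a finite family is a natural number -/
theorem exists_nat (K : Subfield Ω) {S : Set Ω} (hS : S.Finite) : ∃ m : ℕ, (m : ℕ∞) = rk K S := by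
  have h1 : rk K S ≤ S.encard := rk_le_encard K S
  exact ENat.ne_top_iff_exists.mp (ne_top_of_le_ne_top (Set.encard_ne_top_iff.mpr hS) h1)

theorem finite_coords [Finite τ] {ι : Type} [Finite ι] (y : ι → τ → Ω) : (coords y).Finite := by
  rw [coords_eq_range]
  exact Set.finite_range _

/-- **Generic copies.** -/
theorem generic_copy [IsAlgClosed Ω] [Uncountable Ω] {σ : Type} [Finite σ] {K L : Subfield Ω}
    (hKL : K ≤ L) (hL : Countable L) (y : σ → Ω) :
    ∃ y' : σ → Ω, (∀ P : MvPolynomial σ K, aeval y P = 0 ↔ aeval y' P = 0) ∧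
      ∀ (ρ : Type) [Finite ρ] (s : ρ → σ),
        rk L (Set.range fun q => y' (s q)) = rk K (Set.range fun q => y (s q)) ∧
        rk K (Set.range fun q => y' (s q)) = rk K (Set.range fun q => y (s q)) := by
  obtain ⟨y', h1, h2⟩ := stmGeneric Ω σ K L hKL hL y
  refine ⟨y', h1, fun ρ _ s => ?_⟩
  have hK : rk K (Set.range fun q => y' (s q)) = rk K (Set.range fun q => y (s q)) := by
    refine le_antisymm ?_ ?_
    · refine Pool.Agent.Y141.OD.rk_le K K le_rfl _ _ fun P hP => ?_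
      have h3 := (h1 (rename s P)).mp (by rw [aeval_rename]; exact hP)
      rw [aeval_rename] at h3
      exact h3
    · refine Pool.Agent.Y141.OD.rk_le K K le_rfl _ _ fun P hP => ?_
      have h3 := (h1 (rename s P)).mpr (by rw [aeval_rename]; exact hP)
      rw [aeval_rename] at h3
      exact h3
  refine ⟨?_, hK⟩
  have hsub : (Set.range fun q => y' (s q)) ∪ Set.range y' = Set.range y' := by
    refine Set.union_eq_right.mpr ?_
    rintro _ ⟨q, rfl⟩
    exact ⟨s q, rfl⟩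
  have htotK : rk K (Set.range y') = rk K (Set.range y) :=
    le_antisymm (Pool.Agent.Y141.OD.rk_le K K le_rfl _ _ fun P hP => (h1 P).mp hP)
      (Pool.Agent.Y141.OD.rk_le K K le_rfl _ _ fun P hP => (h1 P).mpr hP)
  have e1 := rk_adj_union L (Set.range fun q => y' (s q)) (Set.range y')
  have e2 := rk_adj_union K (Set.range fun q => y' (s q)) (Set.range y')
  rw [hsub] at e1 e2
  have hf : (Set.range fun q => y' (s q)).Finite := Set.finite_range _
  have hf' : (Set.range y').Finite := Set.finite_range _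
  have l1 : rk L (Set.range fun q => y' (s q)) ≤ rk K (Set.range fun q => y' (s q)) := rk_anti hKL _
  have l2 : rk (adj L (Set.range fun q => y' (s q))) (Set.range y') ≤
      rk (adj K (Set.range fun q => y' (s q))) (Set.range y') :=
    rk_anti (adj_le (hKL.trans (le_adj_left _ _)) (subset_adj _ _)) _
  rw [h2, ← htotK, e2] at e1
  rw [← hK]
  obtain ⟨a, ha⟩ := exists_nat L hf
  obtain ⟨b, hb⟩ := exists_nat K hf
  obtain ⟨c, hc⟩ := exists_nat (adj L (Set.range fun q => y' (s q))) hf'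
  obtain ⟨d, hd⟩ := exists_nat (adj K (Set.range fun q => y' (s q))) hf'
  rw [← ha, ← hb, ← hc, ← hd] at e1
  rw [← ha, ← hb] at l1
  rw [← hc, ← hd] at l2
  rw [← ha, ← hb]
  norm_cast at e1 l1 l2 ⊢
  omega

/-- The zero-cycles `z - z'` and `x - y` on `V` are equivalent modulo zero-cycles on `D`. -/
def RelD (V D : Set (τ → Ω)) (cl : (τ → Ω) → A) {n m a b : ℕ} (z : Fin n → τ → Ω)
    (z' : Fin m → τ → Ω) (x : Fin a → τ → Ω) (y : Fin b → τ → Ω) : Prop :=
  (∀ i, z i ∈ V) ∧ (∀ i, z' i ∈ V) ∧ (∀ i, x i ∈ V) ∧ (∀ i, y i ∈ V) ∧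
    ∃ (c d : ℕ) (w : Fin c → τ → Ω) (w' : Fin d → τ → Ω), (∀ i, w i ∈ D) ∧ (∀ i, w' i ∈ D) ∧
      n + (b + d) = m + (a + c) ∧
      ∑ i, cl (z i) + (∑ i, cl (y i) + ∑ i, cl (w' i)) =
        ∑ i, cl (z' i) + (∑ i, cl (x i) + ∑ i, cl (w i))

/-- the copy of a relation `∑ cl (P i) = ∑ cl (Q i)` -/
theorem rel_copy {k K : Subfield Ω} {V : Set (τ → Ω)} {cl : (τ → Ω) → A} (hc : Cls k V cl)
    (hk : k ≤ K) {κ ι : Type} [Fintype κ] [Fintype ι] (hcard : Fintype.card κ = Fintype.card ι)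
    {P P' : κ → τ → Ω} {Q Q' : ι → τ → Ω} (hP : ∀ i, P i ∈ V) (hQ : ∀ i, Q i ∈ V)
    (hs : ∑ i, cl (P i) = ∑ i, cl (Q i))
    (h : ∀ F : MvPolynomial ((κ ⊕ ι) × τ) K, aeval (fun p => Sum.elim P Q p.1 p.2) F = 0 ↔
      aeval (fun p => Sum.elim P' Q' p.1 p.2) F = 0) :
    (∀ i, P' i ∈ V) ∧ (∀ i, Q' i ∈ V) ∧ ∑ i, cl (P' i) = ∑ i, cl (Q' i) := by
  refine (hc.mono hk).stab κ ι hcard P Q P' Q' hP hQ hs ?_ ?_ fun F hF => (h F).mp hF
  · intro i h0
    apply hc.ne_zero _ (hP i)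
    funext a
    have h1 := (h (X (Sum.inl i, a))).mpr (by
      rw [aeval_X]
      exact congrFun h0 a)
    rw [aeval_X] at h1
    exact h1
  · intro i h0
    apply hc.ne_zero _ (hQ i)
    funext a
    have h1 := (h (X (Sum.inr i, a))).mpr (by
      rw [aeval_X]
      exact congrFun h0 a)
    rw [aeval_X] at h1
    exact h1

end Pool.Agent.H70.TD
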