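import Pool.Agent.H70.TD.Main

/-!
# Transcendence degrees of arbitrary zero-cycles: the criterion, and the case of equality
-/

set_option autoImplicit false

namespace Pool.Agent.H70.TD

open MvPolynomial Pool.Agent.Y148.OD Pool.Agent.H15.TD

variable {r : ℕ} {X D : Set (Pt r)}

theorem cycRatios_elim0 {n : ℕ} (z : Fin n → X) :
    cycRatios z (Fin.elim0 : Fin 0 → X) = ratios fun i => (z i : Pt r) := by
  unfold cycRatios
  rw [Set.union_eq_left]
  rintro c ⟨i, -⟩
  exact i.elim0

theorem γ_elim0 : γ X (Fin.elim0 : Fin 0 → X) = 0 := by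
  unfold γ
  rw [Fin.sum_univ_zero]
  rfl

/-- If `B(X)` is finite-dimensional the inequality is violated, over every countable field. -/
theorem exists_violation (hX : IsVariety X 2) (hfin : ∃ c : ℕ, ∀ n, dn X 2 n ≤ c)
    {K : Subfield ℂ} (hK : Countable K) :
    ∃ (n a b : ℕ) (z : Fin n → X) (x : Fin a → X) (y : Fin b → X), γ X z = γ X x - γ X y ∧
      ((2 * n : ℕ) : ℕ∞) < rk (adj K (cycRatios x y)) (ratios fun i => (z i : Pt r)) +
        rk K (ratios fun i => (z i : Pt r)) := by
  rcases alternative (by omega) hX with ⟨⟨k', q, hk'c, hB⟩, -⟩ | ⟨h1, -⟩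
  · obtain ⟨k, hk⟩ := setup_cone hX
    set K' := adj K (k' : Set ℂ) with hK'
    have hK'c : Countable K' := countable_adj (Set.countable_coe_iff.mp hk'c)
    obtain ⟨z, hz⟩ := exists_isGeneric hk (q + q + 1) hK'c
    obtain ⟨a, b, x, y, h1, h2⟩ := rep_of_bdd hB (γ X z)
    refine ⟨q + q + 1, a, b, z, x, y, h1, ?_⟩
    have hk'K : k' ≤ K' := fun v hv => subset_adj _ _ hv
    have h3 := rk_ge hz (S := cycRatios x y) (s := q + q) ((rk_anti hk'K _).trans h2) (by omega)
    have h4 : rk (adj K' (cycRatios x y)) (ratios fun i => (z i : Pt r)) ≤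
        rk (adj K (cycRatios x y)) (ratios fun i => (z i : Pt r)) :=
      rk_anti (adj_le ((le_adj_left _ _).trans (le_adj_left _ _)) (subset_adj _ _)) _
    have h5 : ((2 * (q + q + 1) : ℕ) : ℕ∞) ≤ rk K (ratios fun i => (z i : Pt r)) :=
      hz.trans (rk_anti (le_adj_left _ _) _)
    have h6 := add_le_add (h3.trans h4) h5
    refine lt_of_lt_of_le ?_ h6
    exact_mod_cast (by omega :
      2 * (q + q + 1) < (2 * (q + q + 1) - (q + q)) + 2 * (q + q + 1))
  · exact absurd hfin h1

theorem rk_K_le {K : Subfield ℂ} {S T : Set ℂ} :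
    rk K S ≤ rk K T + rk (adj K T) S := by
  rw [← rk_union]
  exact rk_mono _ Set.subset_union_left

/-- The inequality, in terms of the transcendence degree of the second zero-cycle. -/
theorem lower_bound {n m a b : ℕ} {z : Fin n → X} {z' : Fin m → X} {x : Fin a → X} {y : Fin b → X}
    {K : Subfield ℂ} {s : ℕ}
    (h : rk (adj K (cycRatios x y)) (cycRatios z z') + rk K (cycRatios z z') ≤ (s : ℕ∞)) :
    2 * rk K (cycRatios z z') ≤ rk K (cycRatios x y) + (s : ℕ∞) := by
  calc 2 * rk K (cycRatios z z') = rk K (cycRatios z z') + rk K (cycRatios z z') := two_mul _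
    _ ≤ (rk K (cycRatios x y) + rk (adj K (cycRatios x y)) (cycRatios z z')) +
        rk K (cycRatios z z') := add_le_add rk_K_le le_rfl
    _ = rk K (cycRatios x y) +
        (rk (adj K (cycRatios x y)) (cycRatios z z') + rk K (cycRatios z z')) := add_assoc _ _ _
    _ ≤ _ := add_le_add le_rfl h

theorem ratios_append {m l : ℕ} (x : Fin m → X) (w : Fin l → X) :
    (ratios fun i => ((Fin.append x w i : X) : Pt r)) =
      (ratios fun i => (x i : Pt r)) ∪ ratios fun i => (w i : Pt r) := by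
  ext c
  constructor
  · rintro ⟨i, e, f, h⟩
    revert h
    refine Fin.addCases (fun i h => ?_) (fun i h => ?_) i
    · simp only [Fin.append_left] at h
      exact Or.inl ⟨i, e, f, h⟩
    · simp only [Fin.append_right] at h
      exact Or.inr ⟨i, e, f, h⟩
  · rintro (⟨i, e, f, h⟩ | ⟨i, e, f, h⟩)
    · exact ⟨Fin.castAdd l i, e, f, by simp only [Fin.append_left]; exact h⟩
    · exact ⟨Fin.natAdd m i, e, f, by simp only [Fin.append_right]; exact h⟩

/-- The bound is attained: `m` general points of `X` and `l` general points of the curve `D`. -/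
theorem attained (hX : IsVariety X 2) (hD : IsVariety D 1) (hDX : D ⊆ X) {K : Subfield ℂ}
    (hK : Countable K) (hDK : DefinedOver K D) (m l : ℕ) :
    ∃ (x : Fin m → X) (z : Fin (m + l) → X),
      EquivMod K X 1 z (Fin.elim0 : Fin 0 → X) x (Fin.elim0 : Fin 0 → X) ∧
      ((2 * m + l : ℕ) : ℕ∞) ≤ rk K (ratios fun i => (z i : Pt r)) ∧
      ((l : ℕ) : ℕ∞) ≤ rk (adj K (ratios fun i => (x i : Pt r))) (ratios fun i => (z i : Pt r)) := by
  obtain ⟨k, hk⟩ := setup_cone hX
  obtain ⟨k₁, hk₁⟩ := setup_cone hD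
  obtain ⟨x, hx⟩ := exists_isGeneric hk m hK
  have hKc : Countable (adj K (ratios fun i => (x i : Pt r))) := countable_adj (countable_ratios _)
  obtain ⟨w, hw⟩ := exists_isGeneric hk₁ l hKc
  set w₁ : Fin l → X := fun i => ⟨(w i : Pt r), hDX (w i).2⟩ with hw₁
  have hw2 : ((l : ℕ) : ℕ∞) ≤ rk (adj K (ratios fun i => (x i : Pt r)))
      (ratios fun i => (w₁ i : Pt r)) := by
    have h1 := hw
    unfold IsGeneric at h1
    rw [one_mul] at h1
    exact h1
  have hw3 : ∀ i, rk K (ratios fun _ : Unit => (w₁ i : Pt r)) ≤ 1 := by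
    intro i
    have := uncountable_complex
    obtain ⟨v, hv, hvK⟩ := exists_generic (fun _ : Unit => (w₁ i : Pt r)) hK
    have h1 := hvK K le_rfl
    have h2 := ((setup_over hK hD hDK).point le_rfl hK).1 (v ()) ⟨(hv ()).choose, by
      rw [(hv ()).choose_spec]
      exact (w i).2⟩
    have h3 : coords v = Set.range (v ()) := by
      ext e
      constructor
      · rintro ⟨i, a, ha⟩
        exact ⟨a, ha.symm⟩
      · rintro ⟨a, ha⟩
        exact ⟨(), a, ha.symm⟩
    rw [h3] at h1
    have h4 := h1.trans h2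
    rw [Fintype.card_unit] at h4
    exact (ENat.add_le_add_iff_right (by simp : ((1 : ℕ) : ℕ∞) ≠ ⊤)).mp (by
      refine h4.trans (le_of_eq ?_)
      norm_num)
  refine ⟨x, Fin.append x w₁, ⟨l, 0, w₁, Fin.elim0, fun i => by exact_mod_cast hw3 i, fun i => i.elim0, ?_⟩, ?_, ?_⟩
  · rw [γ_append, γ_elim0]
    abel
  · rw [ratios_append, rk_adj_union]
    have h1 : ((2 * m : ℕ) : ℕ∞) ≤ rk K (ratios fun i => (x i : Pt r)) := hx
    exact_mod_cast add_le_add h1 hw2
  · rw [ratios_append]
    exact hw2.trans (rk_mono _ Set.subset_union_right)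

end Pool.Agent.H70.TD
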