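import Pool.Agent.H70.TD.Improve2
import Pool.Agent.H15.TD.Alg

/-!
# The smallest field of definition of a class: existence, and its transcendence degree
-/

set_option autoImplicit false

namespace Pool.Agent.H70.TD

open MvPolynomial Pool.Agent.Y148.OD Pool.Agent.H15.TD

variable {r : ℕ} {X : Set (Pt r)}

/-- The zero-cycle `∑ [x i] - ∑ [y i]` is equivalent to `∑ [z i] - ∑ [z' i]` modulo points of
transcendence degree at most `t`, and the coordinates of its points are algebraic over the field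
generated by the coordinates of the points of every zero-cycle of this kind. -/
def Smallest (K : Subfield ℂ) (X : Set (Pt r)) (t : ℕ) {n m a b : ℕ} (z : Fin n → X)
    (z' : Fin m → X) (x : Fin a → X) (y : Fin b → X) : Prop :=
  EquivMod K X t z z' x y ∧ ∀ (a' b' : ℕ) (x' : Fin a' → X) (y' : Fin b' → X),
    EquivMod K X t z z' x' y' → ∀ c ∈ cycRatios x y, IsAlgebraic (adj K (cycRatios x' y')) c

theorem finite_ratios {ι : Type} [Finite ι] (p : ι → Pt r) : (ratios p).Finite := by
  have : ratios p = Set.range (fun q : ι × Fin (r + 1) × Fin (r + 1) =>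
      (p q.1).rep q.2.1 / (p q.1).rep q.2.2) := by
    ext e
    constructor
    · rintro ⟨i, f, g, h⟩
      exact ⟨(i, f, g), h.symm⟩
    · rintro ⟨⟨i, f, g⟩, h⟩
      exact ⟨i, f, g, h.symm⟩
  rw [this]
  exact Set.finite_range _

theorem finite_cycRatios {a b : ℕ} (x : Fin a → X) (y : Fin b → X) : (cycRatios x y).Finite :=
  (finite_ratios _).union (finite_ratios _)

/-- **Existence of the smallest field of definition.** -/
theorem exists_smallest {N : ℕ} (hX : IsVariety X N) {K : Subfield ℂ} (hK : Countable K)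
    (hXK : DefinedOver K X) (t : ℕ) {n m : ℕ} (z : Fin n → X) (z' : Fin m → X) :
    ∃ (a b : ℕ) (x : Fin a → X) (y : Fin b → X), Smallest K X t z z' x y := by
  classical
  set S : Set ℕ := {k | ∃ (a b : ℕ) (x : Fin a → X) (y : Fin b → X), EquivMod K X t z z' x y ∧
    (k : ℕ∞) = rk K (cycRatios x y)} with hS
  have hne : S.Nonempty := by
    obtain ⟨k, hk⟩ := exists_nat K (finite_cycRatios z z')
    exact ⟨k, n, m, z, z', EquivMod.refl K X t z z', hk⟩
  obtain ⟨a, b, x, y, hxy, hmin⟩ := Nat.sInf_mem hne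
  refine ⟨a, b, x, y, hxy, fun a' b' x' y' hxy' c hc => ?_⟩
  by_contra hcon
  have hrk : (1 : ℕ∞) ≤ rk (adj K (cycRatios x' y')) (cycRatios x y) := by
    refine le_rk_iff.mpr ⟨{c}, Set.singleton_subset_iff.mpr hc, ?_, Set.encard_singleton c⟩
    have h2 : Transcendental (adj K (cycRatios x' y')) c := hcon
    exact algebraicIndependent_unique_type_iff.mpr h2
  obtain ⟨x'', y'', h1, h2⟩ := improve hX hK hXK (hxy.symm.trans hxy') hrk
  obtain ⟨k, hk⟩ := exists_nat K (finite_cycRatios x'' y'')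
  have h3 : sInf S ≤ k := Nat.sInf_le ⟨a, b, x'', y'', hxy.trans h1, hk⟩
  rw [← hk, ← hmin] at h2
  exact absurd h2 (not_lt.mpr (by exact_mod_cast h3))

theorem rk_eq_zero_of_alg {K : Subfield ℂ} {S : Set ℂ} (h : ∀ c ∈ S, IsAlgebraic K c) :
    rk K S = 0 := by
  refine le_antisymm ?_ zero_le
  unfold rk
  rw [Matroid.eRk_le_iff]
  intro I hIS hI
  have hI1 : AlgebraicIndependent K (fun j : I => (j : ℂ)) := hI
  have hI2 : I = ∅ := by
    refine Set.eq_empty_of_forall_notMem fun c hc => ?_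
    exact hI1.transcendental ⟨c, hc⟩ (h c (hIS hc))
  rw [hI2, Set.encard_empty]

/-- the transcendence degree of a point of `Xⁿ` -/
theorem rk_ratios_le_dim {N : ℕ} (hX : IsVariety X N) {K : Subfield ℂ} (hK : Countable K)
    (hXK : DefinedOver K X) {n : ℕ} (z : Fin n → X) :
    rk K (ratios fun i => (z i : Pt r)) ≤ ((N * n : ℕ) : ℕ∞) := by
  have := uncountable_complex
  have hs : Setup K (cone X) (N + 1) := setup_over hK hX hXK
  obtain ⟨v, hv, hvK⟩ := exists_generic (fun i => (z i : Pt r)) hK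
  obtain ⟨hv1, -⟩ := sum_cl_eq hv
  have h1 := (hvK K le_rfl).trans (rk_coords_le hs hv1)
  rw [Fintype.card_fin] at h1
  have h2 : (((N + 1) * n : ℕ) : ℕ∞) = ((N * n : ℕ) : ℕ∞) + (n : ℕ∞) := by
    rw [← Nat.cast_add]
    congr 1
    ring
  rw [h2] at h1
  exact (ENat.add_le_add_iff_right (by simp)).mp h1

/-- **Upper bound.** -/
theorem upper_formula {N : ℕ} (hX : IsVariety X N) {K : Subfield ℂ} (hK : Countable K)
    (hXK : DefinedOver K X) {t n a b : ℕ} {z : Fin n → X} {x : Fin a → X} {y : Fin b → X}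
    (h : Smallest K X t z (Fin.elim0 : Fin 0 → X) x y) :
    rk K (cycRatios x y) + ((dim (fibre X z) : ℕ) : ℕ∞) ≤ ((N * n : ℕ) : ℕ∞) := by
  classical
  have := uncountable_complex
  obtain ⟨v, hv, -⟩ := exists_generic (fun i => (z i : Pt r)) hK
  obtain ⟨hv1, hv2⟩ := sum_cl_eq hv
  have hbig := (big_iff hv2 (dim (fibre X z))).mpr le_rfl
  have hLc : Countable (adj K (cycRatios x y)) := countable_adj (countable_cycRatios x y)
  obtain ⟨u, hu, hus, hur⟩ := hbig _ hLc
  obtain ⟨z₁, hz₁⟩ := exists_points hu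
  obtain ⟨-, hz₁s⟩ := sum_cl_eq hz₁
  have h1 : γ X z₁ = γ X z := by rw [← hz₁s, hus, hv2]
  have h2 := h.2 n 0 z₁ Fin.elim0 ⟨0, 0, Fin.elim0, Fin.elim0, fun i => i.elim0, fun i => i.elim0, by
    rw [γ_elim0, h1]
    abel⟩
  rw [cycRatios_elim0] at h2
  have h3 : rk (adj K (ratios fun i => (z₁ i : Pt r))) (cycRatios x y) = 0 := rk_eq_zero_of_alg h2
  have h4 := rk_coords_le_ratios hz₁ (adj K (cycRatios x y))
  rw [Fintype.card_fin] at h4
  have h5 : ((dim (fibre X z) : ℕ) : ℕ∞) ≤
      rk (adj K (cycRatios x y)) (ratios fun i => (z₁ i : Pt r)) := by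
    have h6 := hur.trans h4
    have h7 : ((dim (fibre X z) + n : ℕ) : ℕ∞) = ((dim (fibre X z) : ℕ) : ℕ∞) + (n : ℕ∞) := by
      push_cast
      rfl
    rw [h7] at h6
    exact (ENat.add_le_add_iff_right (by simp)).mp h6
  calc rk K (cycRatios x y) + ((dim (fibre X z) : ℕ) : ℕ∞)
      ≤ rk K (cycRatios x y) + rk (adj K (cycRatios x y)) (ratios fun i => (z₁ i : Pt r)) :=
        add_le_add le_rfl h5
    _ = rk K (cycRatios x y ∪ ratios fun i => (z₁ i : Pt r)) := (rk_adj_union _ _ _).symm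
    _ = rk K (ratios fun i => (z₁ i : Pt r)) := by
        rw [Set.union_comm, rk_adj_union, h3, add_zero]
    _ ≤ _ := rk_ratios_le_dim hX hK hXK z₁

/-- **Lower bound.** -/
theorem lower_formula {N : ℕ} (hX : IsVariety X N) {K : Subfield ℂ} (hK : Countable K)
    (hXK : DefinedOver K X) {n a b : ℕ} {z : Fin n → X} (hz : IsGeneric N K z) {x : Fin a → X}
    {y : Fin b → X} (h : γ X z = γ X x - γ X y) :
    ((dn X N n : ℕ) : ℕ∞) ≤ rk K (cycRatios x y) := by
  classical
  have := uncountable_complex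
  have hs : Setup K (cone X) (N + 1) := setup_over hK hX hXK
  have hc : Cls K (cone X) (cl X) := cls_cone stmStab hs
  have hFc : Countable (adj K (cycRatios x y)) := countable_adj (countable_cycRatios x y)
  have hKF : K ≤ adj K (cycRatios x y) := le_adj_left _ _
  obtain ⟨v, hv, hvK⟩ := exists_generic (fun i => (z i : Pt r)) hFc
  obtain ⟨ux, hux, huxK⟩ := exists_normal fun i => (x i : Pt r)
  obtain ⟨uy, huy, huyK⟩ := exists_normal fun i => (y i : Pt r)
  obtain ⟨hv1, hv2⟩ := sum_cl_eq hv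
  obtain ⟨hx1, hx2⟩ := sum_cl_eq hux
  obtain ⟨hy1, hy2⟩ := sum_cl_eq huy
  obtain ⟨e, he⟩ := exists_nat (adj K (cycRatios x y)) (finite_ratios fun i => (z i : Pt r))
  have hcard : n + b = a := by
    refine deg_eq (X := X) (x := Fin.append z y) (y := x) ?_
    rw [γ_append, h]
    abel
  have hF₁c : Countable (adj (adj K (cycRatios x y)) (coords v)) :=
    countable_adj (countable_coords v)
  obtain ⟨P', Q', hP'V, hQ'V, hP'Q', hP'f, hQ'f, -, hrkL⟩ := copy_step hc hKF
    (le_adj_left _ (coords v)) hF₁c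
    (κ := Fin n ⊕ Fin b) (ι := Fin a) (P := Sum.elim v uy) (Q := ux)
    (by
      simp only [Fintype.card_sum, Fintype.card_fin]
      exact hcard)
    (by
      rintro (i | i)
      · exact hv1 i
      · exact hy1 i)
    hx1
    (by
      rw [Fintype.sum_sum_type]
      simp only [Sum.elim_inl, Sum.elim_inr]
      rw [hv2, hx2, hy2, h]
      abel)
  have hfy : ∀ i, P' (Sum.inr i) = uy i := fun i =>
    hP'f (Sum.inr i) fun e => subset_adj _ _ (Or.inr (huyK i e))
  have hfx : ∀ i, Q' i = ux i := fun i => hQ'f i fun e => subset_adj _ _ (Or.inl (huxK i e))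
  have hsum : ∑ i, cl X (v i) = ∑ i, cl X (P' (Sum.inl i)) := by
    rw [Fintype.sum_sum_type] at hP'Q'
    simp only [hfy, hfx] at hP'Q'
    rw [hx2, hy2] at hP'Q'
    rw [hv2, h, ← hP'Q']
    abel
  have hr1 : ((e + n : ℕ) : ℕ∞) ≤ rk (adj K (coords v)) (coords fun i => P' (Sum.inl i)) := by
    have h1 := hrkL (Fin n) (fun i => Sum.inl (Sum.inl i))
    have h2 : rk (adj (adj K (cycRatios x y)) (coords v)) (coords fun i => P' (Sum.inl i)) =
        rk (adj K (cycRatios x y)) (coords v) := h1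
    have h3 : rk (adj (adj K (cycRatios x y)) (coords v)) (coords fun i => P' (Sum.inl i)) ≤
        rk (adj K (coords v)) (coords fun i => P' (Sum.inl i)) :=
      rk_anti (adj_le (hKF.trans (le_adj_left _ _)) (subset_adj _ _)) _
    refine le_trans ?_ h3
    rw [h2]
    have h4 := hvK _ le_rfl
    rw [← he, Fintype.card_fin] at h4
    exact_mod_cast h4
  have hr2 : (((N + 1) * n : ℕ) : ℕ∞) ≤ rk K (coords v) := by
    have h1 := hvK K hKF
    rw [Fintype.card_fin] at h1
    refine le_trans ?_ h1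
    have h2 : (((N + 1) * n : ℕ) : ℕ∞) = ((N * n : ℕ) : ℕ∞) + (n : ℕ∞) := by
      rw [← Nat.cast_add]
      congr 1
      ring
    rw [h2]
    exact add_le_add hz le_rfl
  have hle : e ≤ sInf {d | ∃ x : Fin n → X, d = dim (fibre X x)} := by
    rw [le_sInf_iff hX.irred.1]
    intro z₀
    obtain ⟨v₀, hv₀, -⟩ := exists_normal fun i => (z₀ i : Pt r)
    obtain ⟨hv₀1, hv₀2⟩ := sum_cl_eq hv₀
    exact (big_iff hv₀2 e).mp (semicont hs hc hv1 (fun i => hP'V _) hsum hr2 hr1 hv₀1)
  have h1 : ((N * n : ℕ) : ℕ∞) ≤ rk K (cycRatios x y) + (e : ℕ∞) := by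
    refine le_trans hz ?_
    rw [he, ← rk_adj_union]
    exact rk_mono _ Set.subset_union_right
  obtain ⟨k, hk⟩ := exists_nat K (finite_cycRatios x y)
  rw [← hk] at h1 ⊢
  norm_cast at h1 ⊢
  rw [dn]
  omega

theorem isAlgebraic_ratios {K : Subfield ℂ} {n : ℕ} {w : Fin n → X}
    (hw : ∀ i, rk K (ratios fun _ : Unit => (w i : Pt r)) ≤ ((0 : ℕ) : ℕ∞)) :
    ∀ c ∈ ratios fun i => (w i : Pt r), IsAlgebraic K c := by
  rintro c ⟨i, e, f, rfl⟩
  exact isAlgebraic_of_rk (S := ratios fun _ : Unit => (w i : Pt r)) (by simpa using hw i)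
    ⟨(), e, f, rfl⟩

/-- **Lower bound**, modulo points over the algebraic closure of `K`. -/
theorem lower_formula_mod {N : ℕ} (hX : IsVariety X N) {K : Subfield ℂ} (hK : Countable K)
    (hXK : DefinedOver K X) {n a b : ℕ} {z : Fin n → X} (hz : IsGeneric N K z) {x : Fin a → X}
    {y : Fin b → X} (h : EquivMod K X 0 z (Fin.elim0 : Fin 0 → X) x y) :
    ((dn X N n : ℕ) : ℕ∞) ≤ rk K (cycRatios x y) := by
  obtain ⟨c, d, w, w', hw, hw', hsum⟩ := h
  rw [γ_elim0, sub_zero] at hsum
  have h1 := lower_formula hX hK hXK hz (x := Fin.append x w) (y := Fin.append y w') (by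
    rw [γ_append, γ_append, hsum]
    abel)
  refine h1.trans ?_
  have h2 : cycRatios (Fin.append x w) (Fin.append y w') = cycRatios x y ∪ cycRatios w w' := by
    unfold cycRatios
    rw [ratios_append, ratios_append]
    ext e
    simp only [Set.mem_union]
    tauto
  rw [h2]
  have h3 : rk K (cycRatios w w') = 0 := by
    refine rk_eq_zero_of_alg ?_
    rintro e (he | he)
    · exact isAlgebraic_ratios hw e he
    · exact isAlgebraic_ratios hw' e he
  refine (rk_union_le _ _ _).trans ?_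
  rw [h3, add_zero]

/-- **Upper bound**, in terms of `d_n`. -/
theorem upper_formula_dn {N : ℕ} (hX : IsVariety X N) {K : Subfield ℂ} (hK : Countable K)
    (hXK : DefinedOver K X) {t n a b : ℕ} {z : Fin n → X} {x : Fin a → X} {y : Fin b → X}
    (h : Smallest K X t z (Fin.elim0 : Fin 0 → X) x y) :
    rk K (cycRatios x y) ≤ ((dn X N n : ℕ) : ℕ∞) := by
  have h1 := upper_formula hX hK hXK h
  obtain ⟨k, hk⟩ := exists_nat K (finite_cycRatios x y)
  rw [← hk] at h1 ⊢
  have h2 : sInf {d | ∃ x : Fin n → X, d = dim (fibre X x)} ≤ dim (fibre X z) :=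
    Nat.sInf_le ⟨z, rfl⟩
  norm_cast at h1 ⊢
  rw [dn]
  omega

/-- **The transcendence degree of the smallest field of definition.** -/
theorem formula {N : ℕ} (hX : IsVariety X N) {K : Subfield ℂ} (hK : Countable K)
    (hXK : DefinedOver K X) {n a b : ℕ} {z : Fin n → X} (hz : IsGeneric N K z) {x : Fin a → X}
    {y : Fin b → X} (h : Smallest K X 0 z (Fin.elim0 : Fin 0 → X) x y) :
    rk K (cycRatios x y) = ((dn X N n : ℕ) : ℕ∞) :=
  le_antisymm (upper_formula_dn hX hK hXK h) (lower_formula_mod hX hK hXK hz h.1)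

theorem cycRatios_append_sub {a b a' b' : ℕ} (x : Fin a → X) (y : Fin b → X) (x' : Fin a' → X)
    (y' : Fin b' → X) : cycRatios (Fin.append x y') (Fin.append y x') =
      cycRatios x y ∪ cycRatios x' y' := by
  unfold cycRatios
  rw [ratios_append, ratios_append]
  ext e
  simp only [Set.mem_union]
  tauto

/-- **The criterion**: `B(X)` is finite-dimensional if and only if the fields of definition of the
classes have bounded transcendence degree. -/
theorem bounded_iff {N : ℕ} (hX : IsVariety X N) {K : Subfield ℂ} (hK : Countable K)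
    (hXK : DefinedOver K X) : (∃ c : ℕ, ∀ n, dn X N n ≤ c) ↔
      ∃ q : ℕ, ∀ (n m : ℕ) (z : Fin n → X) (z' : Fin m → X), ∃ (a b : ℕ) (x : Fin a → X)
        (y : Fin b → X), EquivMod K X 0 z z' x y ∧ rk K (cycRatios x y) ≤ (q : ℕ∞) := by
  constructor
  · rintro ⟨c, hc⟩
    refine ⟨c + c, fun n m z z' => ?_⟩
    obtain ⟨a, b, x, y, h⟩ := exists_smallest hX hK hXK 0 z (Fin.elim0 : Fin 0 → X)
    obtain ⟨a', b', x', y', h'⟩ := exists_smallest hX hK hXK 0 z' (Fin.elim0 : Fin 0 → X)
    have h1 := (upper_formula_dn hX hK hXK h).trans (by exact_mod_cast hc n :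
      ((dn X N n : ℕ) : ℕ∞) ≤ (c : ℕ∞))
    have h1' := (upper_formula_dn hX hK hXK h').trans (by exact_mod_cast hc m :
      ((dn X N m : ℕ) : ℕ∞) ≤ (c : ℕ∞))
    refine ⟨a + b', b + a', Fin.append x y', Fin.append y x', ?_, ?_⟩
    · obtain ⟨⟨k, l, w, w', hw, hw', hs⟩, -⟩ := h
      obtain ⟨⟨k₂, l₂, w₂, w₂', hw₂, hw₂', hs₂⟩, -⟩ := h'
      rw [γ_elim0, sub_zero] at hs hs₂
      refine ⟨k + l₂, l + k₂, Fin.append w w₂', Fin.append w' w₂, fun i => ?_, fun i => ?_, ?_⟩
      · refine Fin.addCases (fun i => ?_) (fun i => ?_) i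
        · rw [Fin.append_left]
          exact hw i
        · rw [Fin.append_right]
          exact hw₂' i
      · refine Fin.addCases (fun i => ?_) (fun i => ?_) i
        · rw [Fin.append_left]
          exact hw' i
        · rw [Fin.append_right]
          exact hw₂ i
      · rw [γ_append, γ_append, γ_append, γ_append, hs, hs₂]
        abel
    · rw [cycRatios_append_sub]
      refine (rk_union_le _ _ _).trans ((add_le_add h1 h1').trans ?_)
      exact_mod_cast le_rfl
  · rintro ⟨q, hq⟩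
    refine ⟨q, fun n => ?_⟩
    obtain ⟨k, hk⟩ := setup_cone hX
    obtain ⟨z, hz⟩ := exists_isGeneric hk n hK
    obtain ⟨a, b, x, y, h, hr⟩ := hq n 0 z Fin.elim0
    exact_mod_cast (lower_formula_mod hX hK hXK hz h).trans hr

end Pool.Agent.H70.TD
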