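import Pool.Agent.H70.TD.Spc
import Pool.Agent.H70.TD.Final

/-!
# The smallest field of definition of the class of a zero-cycle
-/

set_option autoImplicit false

namespace Pool.Agent.H70.TD

open MvPolynomial Pool.Agent.Y148.OD Pool.Agent.H15.TD

variable {r : ℕ} {X : Set (Pt r)}

theorem EquivMod.refl (K : Subfield ℂ) (X : Set (Pt r)) (t : ℕ) {n m : ℕ} (z : Fin n → X)
    (z' : Fin m → X) : EquivMod K X t z z' z z' :=
  ⟨0, 0, Fin.elim0, Fin.elim0, fun i => i.elim0, fun i => i.elim0, by rw [sub_self, add_zero]⟩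

theorem EquivMod.symm {K : Subfield ℂ} {t : ℕ} {n m a b : ℕ} {z : Fin n → X} {z' : Fin m → X}
    {x : Fin a → X} {y : Fin b → X} (h : EquivMod K X t z z' x y) : EquivMod K X t x y z z' := by
  obtain ⟨c, d, w, w', hw, hw', h⟩ := h
  refine ⟨d, c, w', w, hw', hw, ?_⟩
  rw [h]
  abel

theorem EquivMod.trans {K : Subfield ℂ} {t : ℕ} {n m a b n' m' : ℕ} {z : Fin n → X}
    {z' : Fin m → X} {x : Fin a → X} {y : Fin b → X} {u : Fin n' → X} {v : Fin m' → X}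
    (h : EquivMod K X t z z' x y) (h' : EquivMod K X t x y u v) : EquivMod K X t z z' u v := by
  obtain ⟨c, d, w, w', hw, hw', h⟩ := h
  obtain ⟨c₂, d₂, w₂, w₂', hw₂, hw₂', h₂⟩ := h'
  refine ⟨c + c₂, d + d₂, Fin.append w w₂, Fin.append w' w₂', fun i => ?_, fun i => ?_, ?_⟩
  · refine Fin.addCases (fun i => ?_) (fun i => ?_) i
    · rw [Fin.append_left]
      exact hw i
    · rw [Fin.append_right]
      exact hw₂ i
  · refine Fin.addCases (fun i => ?_) (fun i => ?_) i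
    · rw [Fin.append_left]
      exact hw' i
    · rw [Fin.append_right]
      exact hw₂' i
  · rw [h, h₂, γ_append, γ_append]
    abel

/-- renaming and extension of the coefficients -/
theorem exists_rename {σ σ' : Type} {K L : Subfield ℂ} (h : K ≤ L) (P : MvPolynomial σ K)
    (s : σ → σ') : ∃ Q : MvPolynomial σ' L, ∀ w : σ' → ℂ, aeval w Q = aeval (fun q => w (s q)) P := by
  obtain ⟨Q, hQ⟩ := exists_subst h P (fun q => (Sum.inl (s q) : σ' ⊕ L))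
  exact ⟨Q, fun w => by rw [hQ]; rfl⟩

theorem ratios_sum {n m : ℕ} (z : Fin n → X) (z' : Fin m → X) :
    ratios (Sum.elim (fun i => (z i : Pt r)) fun i => (z' i : Pt r)) = cycRatios z z' := by
  unfold cycRatios
  ext v
  constructor
  · rintro ⟨i | i, e, f, h⟩
    · exact Or.inl ⟨i, e, f, h⟩
    · exact Or.inr ⟨i, e, f, h⟩
  · rintro (⟨i, e, f, h⟩ | ⟨i, e, f, h⟩)
    · exact ⟨Sum.inl i, e, f, h⟩
    · exact ⟨Sum.inr i, e, f, h⟩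

/-- the point of `X` with a given coordinate vector -/
theorem exists_points {ι : Type} {v : ι → Fin (r + 1) → ℂ} (hv : ∀ i, v i ∈ cone X) :
    ∃ x : ι → X, ∀ i, ∃ h : v i ≠ 0, Projectivization.mk ℂ (v i) h = (x i : Pt r) :=
  ⟨fun i => ⟨Projectivization.mk ℂ (v i) (hv i).choose, (hv i).choose_spec⟩,
    fun i => ⟨(hv i).choose, rfl⟩⟩

/-- the generic copy of a relation -/
theorem copy_step {K L L₁ : Subfield ℂ} (hc : Cls K (cone X) (cl X)) (hKL : K ≤ L) (hLL₁ : L ≤ L₁)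
    (hL₁c : Countable L₁) {κ ι : Type} [Fintype κ] [Fintype ι]
    (hcd : Fintype.card κ = Fintype.card ι) {P : κ → Fin (r + 1) → ℂ} {Q : ι → Fin (r + 1) → ℂ}
    (hPV : ∀ i, P i ∈ cone X) (hQV : ∀ i, Q i ∈ cone X)
    (hPQ : ∑ i, cl X (P i) = ∑ i, cl X (Q i)) :
    ∃ (P' : κ → Fin (r + 1) → ℂ) (Q' : ι → Fin (r + 1) → ℂ), (∀ i, P' i ∈ cone X) ∧
      (∀ i, Q' i ∈ cone X) ∧ ∑ i, cl X (P' i) = ∑ i, cl X (Q' i) ∧
      (∀ i, (∀ e, P i e ∈ L) → P' i = P i) ∧ (∀ i, (∀ e, Q i e ∈ L) → Q' i = Q i) ∧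
      (∀ (σ : Type) (s : σ → κ ⊕ ι) (G : MvPolynomial (σ × Fin (r + 1)) K),
        aeval (fun q => Sum.elim P Q (s q.1) q.2) G = 0 ↔
          aeval (fun q => Sum.elim P' Q' (s q.1) q.2) G = 0) ∧
      ∀ (σ : Type) [Finite σ] (s : σ → κ ⊕ ι),
        rk L₁ (coords fun q => Sum.elim P' Q' (s q)) = rk L (coords fun q => Sum.elim P Q (s q)) := by
  have := uncountable_complex
  obtain ⟨Y, hY1, hY2⟩ := generic_copy hLL₁ hL₁c
    (fun q : (κ ⊕ ι) × Fin (r + 1) => Sum.elim P Q q.1 q.2)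
  obtain ⟨P', hP'⟩ : ∃ P' : κ → Fin (r + 1) → ℂ, P' = fun i e => Y (Sum.inl i, e) := ⟨_, rfl⟩
  obtain ⟨Q', hQ'⟩ : ∃ Q' : ι → Fin (r + 1) → ℂ, Q' = fun i e => Y (Sum.inr i, e) := ⟨_, rfl⟩
  have hYPQ : Y = fun q => Sum.elim P' Q' q.1 q.2 := by
    funext q
    rw [hP', hQ']
    obtain ⟨i | i, e⟩ := q <;> rfl
  rw [hYPQ] at hY1 hY2
  obtain ⟨hP'V, hQ'V, hP'Q'⟩ := rel_copy hc hKL hcd hPV hQV hPQ hY1
  refine ⟨P', Q', hP'V, hQ'V, hP'Q', fun i hi => funext fun e => ?_, fun i hi => funext fun e => ?_,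
    fun σ s G => ?_, fun σ _ s => ?_⟩
  · exact copy_fixed hY1 (s := (Sum.inl i, e)) (hi e)
  · exact copy_fixed hY1 (s := (Sum.inr i, e)) (hi e)
  · obtain ⟨G', hG'⟩ := exists_rename hKL G
      (fun q : σ × Fin (r + 1) => ((s q.1, q.2) : (κ ⊕ ι) × Fin (r + 1)))
    have h1 := hY1 G'
    rw [hG', hG'] at h1
    exact h1
  · rw [coords_eq_range, coords_eq_range]
    exact (hY2 (σ × Fin (r + 1)) (fun q => (s q.1, q.2))).1

/-- moving a point of a relation onto a hyperplane -/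
theorem move_step {K K₂ : Subfield ℂ} (hc : Cls K (cone X) (cl X)) (hKK₂ : K ≤ K₂)
    (hK₂c : Countable K₂) {α β α' β' ω ω' : Type} [Fintype α] [Fintype β] [Fintype α'] [Fintype β']
    [Fintype ω] [Fintype ω']
    (hcard : Fintype.card (α ⊕ (β' ⊕ ω)) = Fintype.card (β ⊕ (α' ⊕ ω')))
    {A : α → Fin (r + 1) → ℂ} {B : β → Fin (r + 1) → ℂ} {A' : α' → Fin (r + 1) → ℂ}
    {B' : β' → Fin (r + 1) → ℂ} {W : ω → Fin (r + 1) → ℂ} {W' : ω' → Fin (r + 1) → ℂ}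
    (hA : ∀ i, A i ∈ cone X) (hB : ∀ i, B i ∈ cone X) (hA' : ∀ i, A' i ∈ cone X)
    (hB' : ∀ i, B' i ∈ cone X) (hW : ∀ i, W i ∈ cone X) (hW' : ∀ i, W' i ∈ cone X)
    (hA'K : ∀ i e, A' i e ∈ K₂) (hB'K : ∀ i e, B' i e ∈ K₂)
    (hsum : ∑ i, cl X (A i) + (∑ i, cl X (B' i) + ∑ i, cl X (W i)) =
      ∑ i, cl X (B i) + (∑ i, cl X (A' i) + ∑ i, cl X (W' i)))
    (hrk : (Fintype.card (α ⊕ β) : ℕ∞) < rk K₂ (coords (Sum.elim A B))) (l : Fin (r + 1) → K) :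
    ∃ (i₀ : α ⊕ β) (c : α ⊕ β → ℂ) (u : α ⊕ β → Fin (r + 1) → ℂ) (U : ω → Fin (r + 1) → ℂ)
      (U' : ω' → Fin (r + 1) → ℂ), (∀ i, c i ≠ 0) ∧ (∀ i, u i ∈ cone X) ∧ (∀ i, U i ∈ cone X) ∧
      (∀ i, U' i ∈ cone X) ∧ (∑ e, (l e : ℂ) * u i₀ e = 0) ∧
      (∀ G : MvPolynomial ((α ⊕ β) × Fin (r + 1)) K,
        aeval (fun q => c q.1 * Sum.elim A B q.1 q.2) G = 0 → aeval (fun q => u q.1 q.2) G = 0) ∧
      (∀ j, ∃ c : ℂ, c ≠ 0 ∧ ∀ G : MvPolynomial (Unit × Fin (r + 1)) K,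
        aeval (fun q => c * W j q.2) G = 0 → aeval (fun q => U j q.2) G = 0) ∧
      (∀ j, ∃ c : ℂ, c ≠ 0 ∧ ∀ G : MvPolynomial (Unit × Fin (r + 1)) K,
        aeval (fun q => c * W' j q.2) G = 0 → aeval (fun q => U' j q.2) G = 0) ∧
      ∑ i, cl X (u (Sum.inl i)) + (∑ i, cl X (B' i) + ∑ i, cl X (U i)) =
        ∑ i, cl X (u (Sum.inr i)) + (∑ i, cl X (A' i) + ∑ i, cl X (U' i)) := by
  classical
  have := uncountable_complex
  obtain ⟨v₁, hv₁⟩ : ∃ v₁ : α ⊕ β → Fin (r + 1) → ℂ, v₁ = Sum.elim A B := ⟨_, rfl⟩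
  rw [← hv₁] at hrk ⊢
  have hv₁V : ∀ i, v₁ i ∈ cone X := by
    rw [hv₁]
    rintro (i | i)
    · exact hA i
    · exact hB i
  obtain ⟨i₀, cc, u, hcc, hu, hspec, hlu⟩ := exists_move hK₂c (y := v₁)
    (fun i => (hv₁V i).choose) hrk (fun e => (⟨l e, hKK₂ (l e).2⟩ : K₂))
  obtain ⟨W₀, hW₀⟩ : ∃ W₀ : ω ⊕ ω' → Fin (r + 1) → ℂ, W₀ = Sum.elim W W' := ⟨_, rfl⟩
  have hWV : ∀ j, W₀ j ∈ cone X := by
    rw [hW₀]
    rintro (j | j)
    · exact hW j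
    · exact hW' j
  obtain ⟨c₂, U₀, hc₂, hU₀, hspec₂⟩ := extend_spec hK₂c
    (fun q : (α ⊕ β) × Fin (r + 1) => cc q.1 * v₁ q.1 q.2)
    (fun q : (α ⊕ β) × Fin (r + 1) => u q.1 q.2) hspec W₀ (fun j => (hWV j).choose)
  obtain ⟨P₂, hP₂⟩ : ∃ P₂ : α ⊕ (β' ⊕ ω) → Fin (r + 1) → ℂ, P₂ =
    Sum.elim (fun i e => cc (Sum.inl i) * v₁ (Sum.inl i) e)
      (Sum.elim B' fun j e => c₂ (Sum.inl j) * W₀ (Sum.inl j) e) := ⟨_, rfl⟩
  obtain ⟨Q₂, hQ₂⟩ : ∃ Q₂ : β ⊕ (α' ⊕ ω') → Fin (r + 1) → ℂ, Q₂ =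
    Sum.elim (fun i e => cc (Sum.inr i) * v₁ (Sum.inr i) e)
      (Sum.elim A' fun j e => c₂ (Sum.inr j) * W₀ (Sum.inr j) e) := ⟨_, rfl⟩
  obtain ⟨P₃, hP₃⟩ : ∃ P₃ : α ⊕ (β' ⊕ ω) → Fin (r + 1) → ℂ, P₃ =
    Sum.elim (fun i => u (Sum.inl i)) (Sum.elim B' fun j => U₀ (Sum.inl j)) := ⟨_, rfl⟩
  obtain ⟨Q₃, hQ₃⟩ : ∃ Q₃ : β ⊕ (α' ⊕ ω') → Fin (r + 1) → ℂ, Q₃ =
    Sum.elim (fun i => u (Sum.inr i)) (Sum.elim A' fun j => U₀ (Sum.inr j)) := ⟨_, rfl⟩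
  have hP₂V : ∀ i, P₂ i ∈ cone X := by
    rw [hP₂]
    rintro (i | i | i)
    · exact smul_mem_cone (hcc _) (hv₁V _)
    · exact hB' i
    · exact smul_mem_cone (hc₂ _) (hWV _)
  have hQ₂V : ∀ i, Q₂ i ∈ cone X := by
    rw [hQ₂]
    rintro (i | i | i)
    · exact smul_mem_cone (hcc _) (hv₁V _)
    · exact hA' i
    · exact smul_mem_cone (hc₂ _) (hWV _)
  have hclv : ∀ i, cl X (fun e => cc i * v₁ i e) = cl X (v₁ i) := fun i =>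
    hc.smul_cl (cc i) (v₁ i) (hcc i) (hv₁V i)
  have hclW : ∀ j, cl X (fun e => c₂ j * W₀ j e) = cl X (W₀ j) := fun j =>
    hc.smul_cl (c₂ j) (W₀ j) (hc₂ j) (hWV j)
  have hP₂Q₂ : ∑ i, cl X (P₂ i) = ∑ i, cl X (Q₂ i) := by
    rw [Fintype.sum_sum_type, Fintype.sum_sum_type, Fintype.sum_sum_type, Fintype.sum_sum_type]
    simp only [hP₂, hQ₂, Sum.elim_inl, Sum.elim_inr, hclv, hclW]
    simp only [hv₁, hW₀, Sum.elim_inl, Sum.elim_inr]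
    exact hsum
  have hspec₃ : ∀ G : MvPolynomial (((α ⊕ (β' ⊕ ω)) ⊕ (β ⊕ (α' ⊕ ω'))) × Fin (r + 1)) K₂,
      aeval (fun q => Sum.elim P₂ Q₂ q.1 q.2) G = 0 →
        aeval (fun q => Sum.elim P₃ Q₃ q.1 q.2) G = 0 := by
    intro G hG
    obtain ⟨G', hG'⟩ := exists_subst (le_refl K₂) G
      (σ' := ((α ⊕ β) × Fin (r + 1)) ⊕ ((ω ⊕ ω') × Fin (r + 1)))
      (fun q => match q.1 with
        | Sum.inl (Sum.inl i) => Sum.inl (Sum.inl (Sum.inl i, q.2))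
        | Sum.inl (Sum.inr (Sum.inl i)) => Sum.inr ⟨B' i q.2, hB'K _ _⟩
        | Sum.inl (Sum.inr (Sum.inr j)) => Sum.inl (Sum.inr (Sum.inl j, q.2))
        | Sum.inr (Sum.inl i) => Sum.inl (Sum.inl (Sum.inr i, q.2))
        | Sum.inr (Sum.inr (Sum.inl i)) => Sum.inr ⟨A' i q.2, hA'K _ _⟩
        | Sum.inr (Sum.inr (Sum.inr j)) => Sum.inl (Sum.inr (Sum.inr j, q.2)))
    have h1 := hspec₂ G'
    rw [hG', hG'] at h1
    have h2 := h1 (by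
      rw [← hG, hP₂, hQ₂]
      congr 2
      funext q
      obtain ⟨(i | i | i) | (i | i | i), e⟩ := q <;> rfl)
    rw [← h2, hP₃, hQ₃]
    congr 2
    funext q
    obtain ⟨(i | i | i) | (i | i | i), e⟩ := q <;> rfl
  obtain ⟨hP₃V, hQ₃V, hfin⟩ := (hc.mono hKK₂).stab (α ⊕ (β' ⊕ ω)) (β ⊕ (α' ⊕ ω')) hcard P₂ Q₂ P₃ Q₃
    hP₂V hQ₂V hP₂Q₂
    (by
      rw [hP₃]
      rintro (i | i | i)
      · exact hu _
      · exact (hB' i).choose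
      · exact hU₀ _)
    (by
      rw [hQ₃]
      rintro (i | i | i)
      · exact hu _
      · exact (hA' i).choose
      · exact hU₀ _) hspec₃
  rw [hP₃] at hP₃V hfin
  rw [hQ₃] at hQ₃V hfin
  refine ⟨i₀, cc, u, fun j => U₀ (Sum.inl j), fun j => U₀ (Sum.inr j), hcc, ?_,
    fun j => hP₃V (Sum.inr (Sum.inr j)), fun j => hQ₃V (Sum.inr (Sum.inr j)), hlu, ?_, ?_, ?_, ?_⟩
  · rintro (i | i)
    · exact hP₃V (Sum.inl i)
    · exact hQ₃V (Sum.inl i)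
  · intro G hG
    obtain ⟨G', hG'⟩ := exists_rename hKK₂ G id
    have h1 := hspec G'
    rw [hG', hG'] at h1
    exact h1 hG
  · intro j
    refine ⟨c₂ (Sum.inl j), hc₂ _, fun G hG => ?_⟩
    obtain ⟨G', hG'⟩ := exists_rename hKK₂ G (fun q : Unit × Fin (r + 1) =>
      (Sum.inr (Sum.inl j, q.2) : ((α ⊕ β) × Fin (r + 1)) ⊕ ((ω ⊕ ω') × Fin (r + 1))))
    have h1 := hspec₂ G'
    rw [hG', hG'] at h1
    refine h1 ?_
    rw [← hG, hW₀]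
    rfl
  · intro j
    refine ⟨c₂ (Sum.inr j), hc₂ _, fun G hG => ?_⟩
    obtain ⟨G', hG'⟩ := exists_rename hKK₂ G (fun q : Unit × Fin (r + 1) =>
      (Sum.inr (Sum.inr j, q.2) : ((α ⊕ β) × Fin (r + 1)) ⊕ ((ω ⊕ ω') × Fin (r + 1))))
    have h1 := hspec₂ G'
    rw [hG', hG'] at h1
    refine h1 ?_
    rw [← hG, hW₀]
    rfl
  · rw [Fintype.sum_sum_type, Fintype.sum_sum_type, Fintype.sum_sum_type,
      Fintype.sum_sum_type] at hfin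
    exact hfin

end Pool.Agent.H70.TD
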