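import Pool.Agent.H70.TD.Improve

/-!
# The smallest field of definition of the class of a zero-cycle: improvement of representatives
-/

set_option autoImplicit false

namespace Pool.Agent.H70.TD

open MvPolynomial Pool.Agent.Y148.OD Pool.Agent.H15.TD

variable {r : ℕ} {X : Set (Pt r)}

theorem pt_smul {v : Fin (r + 1) → ℂ} {q : Pt r} (h : ∃ h : v ≠ 0, Projectivization.mk ℂ v h = q)
    {c : ℂ} (hc : c ≠ 0) : ∃ h : (fun e => c * v e) ≠ 0,
      Projectivization.mk ℂ (fun e => c * v e) h = q := by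
  obtain ⟨h0, h1⟩ := h
  have h2 : c • v ≠ 0 := smul_ne_zero hc h0
  refine ⟨h2, ?_⟩
  rw [← h1]
  exact mk_smul v h0 _ hc h2

theorem pt_unique {v : Fin (r + 1) → ℂ} {q q' : Pt r}
    (h : ∃ h : v ≠ 0, Projectivization.mk ℂ v h = q)
    (h' : ∃ h : v ≠ 0, Projectivization.mk ℂ v h = q') : q = q' := by
  obtain ⟨h0, h1⟩ := h
  obtain ⟨h2, h3⟩ := h'
  rw [← h1, ← h3]

/-- the transcendence degree of one point does not increase -/
theorem point_spec {K : Subfield ℂ} (hK : Countable K) {v u : Fin (r + 1) → ℂ} {q q' : Pt r}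
    (hv : ∃ h : v ≠ 0, Projectivization.mk ℂ v h = q)
    (hu : ∃ h : u ≠ 0, Projectivization.mk ℂ u h = q') {c : ℂ} (hc : c ≠ 0)
    (h : ∀ G : MvPolynomial (Unit × Fin (r + 1)) K, aeval (fun s => c * v s.2) G = 0 →
      aeval (fun s => u s.2) G = 0) {t : ℕ} (ht : rk K (ratios fun _ : Unit => q) ≤ (t : ℕ∞)) :
    rk K (ratios fun _ : Unit => q') ≤ (t : ℕ∞) :=
  (ratio_spec hK (p := fun _ : Unit => q) (p' := fun _ : Unit => q')
    (v := fun _ => fun e => c * v e) (v' := fun _ => u) (fun _ => pt_smul hv hc) (fun _ => hu) h).1.trans ht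

/-- **A representative which is not defined over the field of another one can be improved.** -/
theorem improve {N : ℕ} (hX : IsVariety X N) {K : Subfield ℂ} (hK : Countable K)
    (hXK : DefinedOver K X) {t a b a' b' : ℕ} {x : Fin a → X} {y : Fin b → X} {x' : Fin a' → X}
    {y' : Fin b' → X} (h : EquivMod K X t x y x' y')
    (hrk : (1 : ℕ∞) ≤ rk (adj K (cycRatios x' y')) (cycRatios x y)) :
    ∃ (x'' : Fin a → X) (y'' : Fin b → X), EquivMod K X t x y x'' y'' ∧
      rk K (cycRatios x'' y'') < rk K (cycRatios x y) := by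
  classical
  have := uncountable_complex
  have hs : Setup K (cone X) (N + 1) := setup_over hK hX hXK
  have hc : Cls K (cone X) (cl X) := cls_cone stmStab hs
  obtain ⟨c, d, w, w', hw, hw', hsum⟩ := h
  obtain ⟨p, hp⟩ : ∃ p : Fin a ⊕ Fin b → Pt r,
    p = Sum.elim (fun i => (x i : Pt r)) (fun i => (y i : Pt r)) := ⟨_, rfl⟩
  have hratp : ratios p = cycRatios x y := by
    rw [hp]
    exact ratios_sum x y
  have hpx : ∀ i, p (Sum.inl i) = x i := fun i => by rw [hp]; rfl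
  have hpy : ∀ i, p (Sum.inr i) = y i := fun i => by rw [hp]; rfl
  have hLc : Countable (adj K (cycRatios x' y')) := countable_adj (countable_cycRatios x' y')
  have hKL : K ≤ adj K (cycRatios x' y') := le_adj_left _ _
  have hK₂c : Countable (adj K (ratios p)) := countable_adj (countable_ratios _)
  have hKK₂ : K ≤ adj K (ratios p) := le_adj_left _ _
  have hL₁c : Countable (adj (adj K (cycRatios x' y')) (ratios p)) :=
    countable_adj (countable_ratios _)
  have hLL₁ : adj K (cycRatios x' y') ≤ adj (adj K (cycRatios x' y')) (ratios p) := le_adj_left _ _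
  have hK₂L₁ : adj K (ratios p) ≤ adj (adj K (cycRatios x' y')) (ratios p) :=
    adj_le (hKL.trans hLL₁) (subset_adj _ _)
  -- the vectors
  obtain ⟨v, hv, hvK⟩ := exists_generic p hLc
  obtain ⟨v₀, hv₀, hv₀K⟩ := exists_normal p
  obtain ⟨ux, hux, huxK⟩ := exists_normal fun i => (x' i : Pt r)
  obtain ⟨uy, huy, huyK⟩ := exists_normal fun i => (y' i : Pt r)
  obtain ⟨hx1, hx2⟩ := sum_cl_eq (x := x) (v := fun i => v (Sum.inl i))
    (fun i => by rw [← hpx]; exact hv (Sum.inl i))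
  obtain ⟨hy1, hy2⟩ := sum_cl_eq (x := y) (v := fun i => v (Sum.inr i))
    (fun i => by rw [← hpy]; exact hv (Sum.inr i))
  obtain ⟨hx01, hx02⟩ := sum_cl_eq (x := x) (v := fun i => v₀ (Sum.inl i))
    (fun i => by rw [← hpx]; exact hv₀ (Sum.inl i))
  obtain ⟨hy01, hy02⟩ := sum_cl_eq (x := y) (v := fun i => v₀ (Sum.inr i))
    (fun i => by rw [← hpy]; exact hv₀ (Sum.inr i))
  obtain ⟨hx'1, hx'2⟩ := sum_cl_eq hux
  obtain ⟨hy'1, hy'2⟩ := sum_cl_eq huy
  obtain ⟨wv, hwv⟩ : ∃ wv : Fin c → Fin (r + 1) → ℂ, ∀ i, ∃ h : wv i ≠ 0,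
      Projectivization.mk ℂ (wv i) h = (w i : Pt r) := ⟨fun i => (w i : Pt r).rep, fun i =>
    ⟨(w i : Pt r).rep_nonzero, Projectivization.mk_rep _⟩⟩
  obtain ⟨wv', hwv'⟩ : ∃ wv' : Fin d → Fin (r + 1) → ℂ, ∀ i, ∃ h : wv' i ≠ 0,
      Projectivization.mk ℂ (wv' i) h = (w' i : Pt r) := ⟨fun i => (w' i : Pt r).rep, fun i =>
    ⟨(w' i : Pt r).rep_nonzero, Projectivization.mk_rep _⟩⟩
  obtain ⟨hw1, hw2⟩ := sum_cl_eq hwv
  obtain ⟨hw1', hw2'⟩ := sum_cl_eq hwv'
  have hxy : γ X x = γ X y + (γ X x' - γ X y' + (γ X w - γ X w')) := by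
    rw [← hsum]
    abel
  have hcard : a + (b' + d) = b + (a' + c) := by
    refine deg_eq (X := X) (x := Fin.append x (Fin.append y' w'))
      (y := Fin.append y (Fin.append x' w)) ?_
    rw [γ_append, γ_append, γ_append, γ_append, hxy]
    abel
  -- the copy
  obtain ⟨P', Q', hP'V, hQ'V, hP'Q', hP'f, hQ'f, hrelK, hrkL⟩ := copy_step hc hKL hLL₁ hL₁c
    (κ := Fin a ⊕ (Fin b' ⊕ Fin d)) (ι := Fin b ⊕ (Fin a' ⊕ Fin c))
    (P := Sum.elim (fun i => v (Sum.inl i)) (Sum.elim uy wv'))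
    (Q := Sum.elim (fun i => v (Sum.inr i)) (Sum.elim ux wv))
    (by
      simp only [Fintype.card_sum, Fintype.card_fin]
      exact hcard)
    (by
      rintro (i | i | i)
      · exact hx1 i
      · exact hy'1 i
      · exact hw1' i)
    (by
      rintro (i | i | i)
      · exact hy1 i
      · exact hx'1 i
      · exact hw1 i)
    (by
      rw [Fintype.sum_sum_type, Fintype.sum_sum_type, Fintype.sum_sum_type, Fintype.sum_sum_type]
      simp only [Sum.elim_inl, Sum.elim_inr]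
      rw [hx2, hy2, hx'2, hy'2, hw2, hw2', hxy]
      abel)
  have hfy : ∀ i, P' (Sum.inr (Sum.inl i)) = uy i := fun i =>
    hP'f (Sum.inr (Sum.inl i)) fun e => subset_adj _ _ (Or.inr (huyK i e))
  have hfx : ∀ i, Q' (Sum.inr (Sum.inl i)) = ux i := fun i =>
    hQ'f (Sum.inr (Sum.inl i)) fun e => subset_adj _ _ (Or.inl (huxK i e))
  obtain ⟨A, hA⟩ : ∃ A : Fin a → Fin (r + 1) → ℂ, A = fun i => P' (Sum.inl i) := ⟨_, rfl⟩
  obtain ⟨B, hB⟩ : ∃ B : Fin b → Fin (r + 1) → ℂ, B = fun i => Q' (Sum.inl i) := ⟨_, rfl⟩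
  obtain ⟨w₁', hw₁'⟩ : ∃ w₁' : Fin d → Fin (r + 1) → ℂ, w₁' = fun i => P' (Sum.inr (Sum.inr i)) :=
    ⟨_, rfl⟩
  obtain ⟨w₁, hw₁⟩ : ∃ w₁ : Fin c → Fin (r + 1) → ℂ, w₁ = fun i => Q' (Sum.inr (Sum.inr i)) :=
    ⟨_, rfl⟩
  have hAV : ∀ i, A i ∈ cone X := fun i => by rw [hA]; exact hP'V _
  have hBV : ∀ i, B i ∈ cone X := fun i => by rw [hB]; exact hQ'V _
  have hw₁V : ∀ i, w₁ i ∈ cone X := fun i => by rw [hw₁]; exact hQ'V _
  have hw₁'V : ∀ i, w₁' i ∈ cone X := fun i => by rw [hw₁']; exact hP'V _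
  have hsum' : ∑ i, cl X (A i) + (γ X y' + ∑ i, cl X (w₁' i)) =
      ∑ i, cl X (B i) + (γ X x' + ∑ i, cl X (w₁ i)) := by
    have h1 := hP'Q'
    rw [Fintype.sum_sum_type, Fintype.sum_sum_type, Fintype.sum_sum_type,
      Fintype.sum_sum_type] at h1
    simp only [hfy, hfx] at h1
    rw [hx'2, hy'2] at h1
    rw [hA, hB, hw₁, hw₁']
    exact h1
  have hv_eq : v = fun q : Fin a ⊕ Fin b =>
      Sum.elim (Sum.elim (fun i => v (Sum.inl i)) (Sum.elim uy wv'))
        (Sum.elim (fun i => v (Sum.inr i)) (Sum.elim ux wv)) ((Sum.map Sum.inl Sum.inl q :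
          (Fin a ⊕ (Fin b' ⊕ Fin d)) ⊕ (Fin b ⊕ (Fin a' ⊕ Fin c)))) := by
    funext q
    obtain i | i := q <;> rfl
  have hv₁_eq : Sum.elim A B = fun q : Fin a ⊕ Fin b =>
      Sum.elim P' Q' ((Sum.map Sum.inl Sum.inl q :
        (Fin a ⊕ (Fin b' ⊕ Fin d)) ⊕ (Fin b ⊕ (Fin a' ⊕ Fin c)))) := by
    rw [hA, hB]
    funext q
    obtain i | i := q <;> rfl
  have hvv₁ : ∀ G : MvPolynomial ((Fin a ⊕ Fin b) × Fin (r + 1)) K,
      aeval (fun q => v q.1 q.2) G = 0 ↔ aeval (fun q => Sum.elim A B q.1 q.2) G = 0 := by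
    intro G
    have h1 := hrelK (Fin a ⊕ Fin b) (Sum.map Sum.inl Sum.inl) G
    rw [hv₁_eq]
    rw [← h1]
    refine Eq.to_iff (congrArg (· = 0) ?_)
    congr 2
    funext q
    obtain ⟨i | i, e⟩ := q <;> rfl
  -- the rank of the copy
  have hrv₁ : (Fintype.card (Fin a ⊕ Fin b) : ℕ∞) < rk (adj K (ratios p)) (coords (Sum.elim A B)) := by
    have h1 : (1 : ℕ∞) + (Fintype.card (Fin a ⊕ Fin b) : ℕ∞) ≤
        rk (adj K (ratios p)) (coords (Sum.elim A B)) := by
      refine le_trans ?_ (rk_anti hK₂L₁ _)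
      rw [hv₁_eq, hrkL (Fin a ⊕ Fin b) (Sum.map Sum.inl Sum.inl), ← hv_eq]
      refine le_trans (add_le_add ?_ le_rfl) (hvK _ le_rfl)
      rw [hratp]
      exact hrk
    refine lt_of_lt_of_le ?_ h1
    rw [add_comm]
    exact_mod_cast Nat.lt_succ_self _
  -- the linear form
  obtain ⟨l, hl⟩ := exists_form K (v := v) (fun i => (hv i).choose)
  obtain ⟨i₀, cc, u, U, U', hcc, hu, hU, hU', hlu, hspec, hspU, hspU', hfin⟩ := move_step hc hKK₂ hK₂c
    (A := A) (B := B) (A' := fun i => v₀ (Sum.inl i)) (B' := fun i => v₀ (Sum.inr i))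
    (W := Sum.elim w₁' wv) (W' := Sum.elim w₁ wv')
    (by
      simp only [Fintype.card_sum, Fintype.card_fin]
      omega)
    hAV hBV hx01 hy01
    (by
      rintro (i | i)
      · exact hw₁'V i
      · exact hw1 i)
    (by
      rintro (i | i)
      · exact hw₁V i
      · exact hw1' i)
    (fun i e => subset_adj _ _ (hv₀K _ e)) (fun i e => subset_adj _ _ (hv₀K _ e))
    (by
      rw [Fintype.sum_sum_type, Fintype.sum_sum_type, hx02, hy02]
      simp only [Sum.elim_inl, Sum.elim_inr]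
      rw [hw2, hw2', hxy]
      have h2 : ∑ i, cl X (A i) + ∑ i, cl X (w₁' i) =
          ∑ i, cl X (B i) + (γ X x' - γ X y' + ∑ i, cl X (w₁ i)) := by
        have h3 : ∑ i, cl X (A i) + ∑ i, cl X (w₁' i) =
            (∑ i, cl X (A i) + (γ X y' + ∑ i, cl X (w₁' i))) - γ X y' := by
          abel
        rw [h3, hsum']
        abel
      calc _ = (∑ i, cl X (A i) + ∑ i, cl X (w₁' i)) + (γ X y + γ X w) := by abel
        _ = _ := by
          rw [h2]
          abel)
    hrv₁ l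
  obtain ⟨p', hp'⟩ := exists_points hu
  obtain ⟨pU, hpU⟩ := exists_points hU
  obtain ⟨pU', hpU'⟩ := exists_points hU'
  -- the transcendence degrees
  have hcop : ∀ (k : (Fin a ⊕ (Fin b' ⊕ Fin d)) ⊕ (Fin b ⊕ (Fin a' ⊕ Fin c))) (q q' : Pt r)
      (_ : rk K (ratios fun _ : Unit => q) ≤ (t : ℕ∞))
      (_ : ∃ h : Sum.elim (Sum.elim (fun i => v (Sum.inl i)) (Sum.elim uy wv'))
        (Sum.elim (fun i => v (Sum.inr i)) (Sum.elim ux wv)) k ≠ 0,
        Projectivization.mk ℂ _ h = q)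
      (_ : ∃ h : Sum.elim P' Q' k ≠ 0, Projectivization.mk ℂ _ h = q'),
      rk K (ratios fun _ : Unit => q') ≤ (t : ℕ∞) := by
    intro k q q' h1 h2 h3
    refine (ratio_spec hK (p := fun _ : Unit => q) (p' := fun _ : Unit => q')
      (fun _ => h2) (fun _ => h3) fun G hG => ?_).1.trans h1
    exact (hrelK Unit (fun _ => k) G).mp hG
  obtain ⟨q₁', hq₁'⟩ := exists_points hw₁'V
  obtain ⟨q₁, hq₁⟩ := exists_points hw₁V
  have hq₁'t : ∀ i, rk K (ratios fun _ : Unit => (q₁' i : Pt r)) ≤ (t : ℕ∞) := fun i =>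
    hcop (Sum.inl (Sum.inr (Sum.inr i))) (w' i) _ (hw' i) (hwv' i) (by
      have h1 := hq₁' i
      rw [hw₁'] at h1
      exact h1)
  have hq₁t : ∀ i, rk K (ratios fun _ : Unit => (q₁ i : Pt r)) ≤ (t : ℕ∞) := fun i =>
    hcop (Sum.inr (Sum.inr (Sum.inr i))) (w i) _ (hw i) (hwv i) (by
      have h1 := hq₁ i
      rw [hw₁] at h1
      exact h1)
  have hUt : ∀ j, rk K (ratios fun _ : Unit => (pU j : Pt r)) ≤ (t : ℕ∞) := by
    rintro (j | j)
    · obtain ⟨e, he, hG⟩ := hspU (Sum.inl j)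
      exact point_spec hK (hq₁' j) (hpU (Sum.inl j)) he hG (hq₁'t j)
    · obtain ⟨e, he, hG⟩ := hspU (Sum.inr j)
      exact point_spec hK (hwv j) (hpU (Sum.inr j)) he hG (hw j)
  have hU't : ∀ j, rk K (ratios fun _ : Unit => (pU' j : Pt r)) ≤ (t : ℕ∞) := by
    rintro (j | j)
    · obtain ⟨e, he, hG⟩ := hspU' (Sum.inl j)
      exact point_spec hK (hq₁ j) (hpU' (Sum.inl j)) he hG (hq₁t j)
    · obtain ⟨e, he, hG⟩ := hspU' (Sum.inr j)
      exact point_spec hK (hwv' j) (hpU' (Sum.inr j)) he hG (hw' j)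
  refine ⟨fun i => p' (Sum.inl i), fun i => p' (Sum.inr i), ?_, ?_⟩
  · -- the equivalence
    refine ⟨d + c, c + d, Fin.append (fun i => pU (Sum.inl i)) (fun i => pU (Sum.inr i)),
      Fin.append (fun i => pU' (Sum.inl i)) (fun i => pU' (Sum.inr i)), fun i => ?_, fun i => ?_, ?_⟩
    · refine Fin.addCases (fun i => ?_) (fun i => ?_) i
      · rw [Fin.append_left]
        exact hUt _
      · rw [Fin.append_right]
        exact hUt _
    · refine Fin.addCases (fun i => ?_) (fun i => ?_) i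
      · rw [Fin.append_left]
        exact hU't _
      · rw [Fin.append_right]
        exact hU't _
    · have h1 := hfin
      rw [Fintype.sum_sum_type, Fintype.sum_sum_type, hx02, hy02] at h1
      obtain ⟨-, k1⟩ := sum_cl_eq (x := fun i => p' (Sum.inl i)) (v := fun i => u (Sum.inl i))
        (fun i => hp' (Sum.inl i))
      obtain ⟨-, k2⟩ := sum_cl_eq (x := fun i => p' (Sum.inr i)) (v := fun i => u (Sum.inr i))
        (fun i => hp' (Sum.inr i))
      obtain ⟨-, k3⟩ := sum_cl_eq (x := fun i => pU (Sum.inl i)) (v := fun i => U (Sum.inl i))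
        (fun i => hpU _)
      obtain ⟨-, k4⟩ := sum_cl_eq (x := fun i => pU (Sum.inr i)) (v := fun i => U (Sum.inr i))
        (fun i => hpU _)
      obtain ⟨-, k5⟩ := sum_cl_eq (x := fun i => pU' (Sum.inl i)) (v := fun i => U' (Sum.inl i))
        (fun i => hpU' _)
      obtain ⟨-, k6⟩ := sum_cl_eq (x := fun i => pU' (Sum.inr i)) (v := fun i => U' (Sum.inr i))
        (fun i => hpU' _)
      rw [k1, k2, k3, k4, k5, k6] at h1
      rw [γ_append, γ_append]
      have h2 : γ X x = γ X (fun i => p' (Sum.inl i)) + (γ X y +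
          (γ X (fun i => pU (Sum.inl i)) + γ X fun i => pU (Sum.inr i))) -
          γ X (fun i => p' (Sum.inr i)) - (γ X (fun i => pU' (Sum.inl i)) +
            γ X fun i => pU' (Sum.inr i)) := by
        rw [h1]
        abel
      rw [h2]
      abel
  · -- the transcendence degree
    have e1 : cycRatios (fun i => p' (Sum.inl i)) (fun i => p' (Sum.inr i)) =
        ratios fun i => (p' i : Pt r) := by
      rw [← ratios_sum]
      congr 1
      funext i
      obtain i | i := i <;> rfl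
    rw [e1, ← hratp]
    obtain ⟨p₁, hp₁⟩ := exists_points (X := X) (v := Sum.elim A B) (by
      rintro (i | i)
      · exact hAV i
      · exact hBV i)
    have hs1 := ratio_spec hK (p := p) (p' := fun i => (p₁ i : Pt r)) hv hp₁
      (fun G hG => (hvv₁ G).mp hG)
    have hs2 := ratio_spec hK (p := fun i => (p₁ i : Pt r)) (p' := fun i => (p' i : Pt r))
      (v := fun i e => cc i * Sum.elim A B i e) (v' := u) (fun i => pt_smul (hp₁ i) (hcc i)) hp' hspec
    refine lt_of_le_of_ne (hs2.1.trans hs1.1) fun heq => ?_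
    have h3 := hs2.2 (by rw [heq]; exact hs1.1) l i₀ hlu
    have h4 : cc i₀ * ∑ e, (l e : ℂ) * Sum.elim A B i₀ e = 0 := by
      rw [← h3, Finset.mul_sum]
      exact Finset.sum_congr rfl fun e _ => by ring
    have h5 := (mul_eq_zero.mp h4).resolve_left (hcc i₀)
    apply hl i₀
    have h6 := hvv₁ (∑ e, C (l e) * MvPolynomial.X (i₀, e))
    have h7 : ∀ u : (Fin a ⊕ Fin b) → Fin (r + 1) → ℂ,
        aeval (fun q : (Fin a ⊕ Fin b) × Fin (r + 1) => u q.1 q.2)
          (∑ e, C (l e) * MvPolynomial.X (i₀, e) : MvPolynomial ((Fin a ⊕ Fin b) × Fin (r + 1)) K) =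
          ∑ e, (l e : ℂ) * u i₀ e := by
      intro u
      rw [map_sum]
      refine Finset.sum_congr rfl fun e _ => ?_
      rw [map_mul, aeval_C, aeval_X]
      rfl
    rw [h7, h7] at h6
    exact h6.mpr h5

end Pool.Agent.H70.TD
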