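import Pool.Agent.H70.TD.Closure
import Pool.Graph.R_pool_sql_team_seeded_1acbe0a2.Y148.OD.Facts2

/-!
# Transcendence degrees of arbitrary zero-cycles on a surface, modulo a curve
-/

set_option autoImplicit false

namespace Pool.Agent.H70.TD

open MvPolynomial Pool.Agent.Y148.OD Pool.Agent.H15.TD

variable {r : ℕ} {X : Set (Pt r)}

/-- The zero-cycles `∑ [z i] - ∑ [z' i]` and `∑ [x i] - ∑ [y i]` on `X` are rationally equivalent up
to a zero-cycle all whose points have transcendence degree at most `t` over `K`. -/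
def EquivMod (K : Subfield ℂ) (X : Set (Pt r)) (t : ℕ) {n m a b : ℕ} (z : Fin n → X)
    (z' : Fin m → X) (x : Fin a → X) (y : Fin b → X) : Prop :=
  ∃ (c d : ℕ) (w : Fin c → X) (w' : Fin d → X),
    (∀ i, rk K (ratios fun _ : Unit => (w i : Pt r)) ≤ (t : ℕ∞)) ∧
    (∀ i, rk K (ratios fun _ : Unit => (w' i : Pt r)) ≤ (t : ℕ∞)) ∧
    γ X z - γ X z' = γ X x - γ X y + (γ X w - γ X w')

/-- If `B(X)` is infinite-dimensional, pairs of equivalent zero-cycles have small rank. -/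
theorem exists_pair_field (hX : IsVariety X 2) (hinf : ¬ ∃ c : ℕ, ∀ n, dn X 2 n ≤ c) :
    ∃ K₀ : Subfield ℂ, Countable K₀ ∧ ∀ (n : ℕ) (Z Y : Fin n → Fin (r + 1) → ℂ),
      (∀ i, Z i ∈ cone X) → (∀ i, Y i ∈ cone X) → ∑ i, cl X (Z i) = ∑ i, cl X (Y i) →
        rk K₀ (coords Z ∪ coords Y) ≤ ((4 * n : ℕ) : ℕ∞) := by
  have htf := pairs_surface_tfae stmComp stmCurve stmStab stmDist hX
  have hnb : ∀ n, ¬ BigPair (cone X) (cl X) n (4 * n + 1) := by
    intro n hn
    apply hinf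
    have h30 : (∃ n : ℕ, 2 * n < dim (equivPairs X n)) → ∃ c : ℕ, ∀ n, dn X 2 n ≤ c :=
      (htf.out 3 0).mp
    refine h30 ⟨n, ?_⟩
    show 2 * n < dim (pairsOf (AddMonoidHom.id (B X)) n)
    rw [lt_dim_iff, dimGE_iff]
    have e : 2 * n + 1 + Fintype.card (Fin n ⊕ Fin n) = 4 * n + 1 := by
      rw [Fintype.card_sum, Fintype.card_fin]
      omega
    rw [e]
    intro L hL
    obtain ⟨Z, Y, hZ, hY, hs, hr⟩ := hn L hL
    refine ⟨Sum.elim Z Y, (hasVec_pairsOf (AddMonoidHom.id (B X)) _).mpr ⟨?_, hs⟩, ?_⟩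
    · rintro (i | i)
      · exact hZ i
      · exact hY i
    · rw [coords_sum_elim]
      exact hr
  have hL : ∀ n, ∃ L : Subfield ℂ, Countable L ∧ ∀ (Z Y : Fin n → Fin (r + 1) → ℂ),
      (∀ i, Z i ∈ cone X) → (∀ i, Y i ∈ cone X) → ∑ i, cl X (Z i) = ∑ i, cl X (Y i) →
        rk L (coords Z ∪ coords Y) ≤ ((4 * n : ℕ) : ℕ∞) := by
    intro n
    by_contra hcon
    apply hnb n
    intro L hL
    by_contra hno
    apply hcon
    refine ⟨L, hL, fun Z Y hZ hY hs => ?_⟩
    by_contra hle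
    rw [not_le] at hle
    apply hno
    refine ⟨Z, Y, hZ, hY, hs, ?_⟩
    have := Order.add_one_le_of_lt hle
    exact_mod_cast this
  choose L hLc hL using hL
  refine ⟨adj (L 0) (⋃ n, (L n : Set ℂ)), ?_, fun n Z Y hZ hY hs => ?_⟩
  · have := hLc 0
    exact countable_adj (Set.countable_iUnion fun n => Set.countable_coe_iff.mp (hLc n))
  · refine (rk_anti ?_ _).trans (hL n Z Y hZ hY hs)
    intro v hv
    exact subset_adj _ _ (Set.mem_iUnion.mpr ⟨n, hv⟩)

theorem γ_append {n m : ℕ} (z : Fin n → X) (z' : Fin m → X) :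
    γ X (Fin.append z z') = γ X z + γ X z' := by
  unfold γ
  rw [Fin.sum_univ_add]
  simp only [Fin.append_left, Fin.append_right]
  rfl

/-- **The inequality for arbitrary zero-cycles.** -/
theorem inequality (hX : IsVariety X 2) (hinf : ¬ ∃ c : ℕ, ∀ n, dn X 2 n ≤ c)
    {K : Subfield ℂ} (hK : Countable K) (hXK : DefinedOver K X)
    {n m a b : ℕ} {z : Fin n → X} {z' : Fin m → X} {x : Fin a → X} {y : Fin b → X}
    (h : EquivMod K X 1 z z' x y) :
    rk (adj K (cycRatios x y)) (cycRatios z z') + rk K (cycRatios z z') ≤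
      ((2 * (n + m) : ℕ) : ℕ∞) := by
  classical
  have := uncountable_complex
  have hs : Setup K (cone X) 3 := setup_over hK hX hXK
  have hc : Cls K (cone X) (cl X) := cls_cone stmStab hs
  obtain ⟨K₁, hK₁, hpair⟩ := exists_pair_field hX hinf
  obtain ⟨c, d, w, w', hw, hw', hsum⟩ := h
  obtain ⟨k', q, hk'c, hkk', hB⟩ := bdd_clo hs hXK (w := Fin.append w w') (by
    intro i
    refine Fin.addCases (fun i => ?_) (fun i => ?_) i
    · rw [Fin.append_left]
      exact_mod_cast hw i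
    · rw [Fin.append_right]
      exact_mod_cast hw' i)
  set D : Set (Fin (r + 1) → ℂ) := {v | ∃ i, v ∈ clo K ((Fin.append w w' i : X) : Pt r).rep} with hD
  have hDspec : ∀ v v' : Fin (r + 1) → ℂ, v ∈ D → v' ≠ 0 →
      (∀ F : MvPolynomial (Fin (r + 1)) K, aeval v F = 0 → aeval v' F = 0) → v' ∈ D := by
    rintro v v' ⟨i, hv⟩ h0 hF
    exact ⟨i, h0, fun F e he hu => hF F (hv.2 F e he hu)⟩
  set K₀ := adj k' (K₁ : Set ℂ) with hK₀
  have hK₀c : Countable K₀ := countable_adj (Set.countable_coe_iff.mp hK₁)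
  have hK₁₀ : K₁ ≤ K₀ := fun v hv => subset_adj _ _ hv
  have hsub : D ⊆ cone X := by
    rintro v ⟨i, hv⟩
    exact clo_sub hXK (rep_mem_cone (Fin.append w w' i).2) hv
  -- the coordinate vectors
  set p : Fin n ⊕ Fin m → Pt r := Sum.elim (fun i => (z i : Pt r)) (fun i => (z' i : Pt r)) with hp
  have hratp : ratios p = cycRatios z z' := by
    unfold cycRatios
    ext v
    constructor
    · rintro ⟨i | i, e, f, h⟩
      · exact Or.inl ⟨i, e, f, h⟩
      · exact Or.inr ⟨i, e, f, h⟩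
    · rintro (⟨i, e, f, h⟩ | ⟨i, e, f, h⟩)
      · exact ⟨Sum.inl i, e, f, h⟩
      · exact ⟨Sum.inr i, e, f, h⟩
  set L := adj K (cycRatios x y) with hL
  have hLc : Countable L := countable_adj (countable_cycRatios x y)
  have hKL : K ≤ L := le_adj_left _ _
  obtain ⟨v, hv, hvK⟩ := exists_generic p hLc
  obtain ⟨ux, hux, huxK⟩ := exists_normal fun i => (x i : Pt r)
  obtain ⟨uy, huy, huyK⟩ := exists_normal fun i => (y i : Pt r)
  obtain ⟨hx1, hx2⟩ := sum_cl_eq hux
  obtain ⟨hy1, hy2⟩ := sum_cl_eq huy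
  obtain ⟨hz1, hz2⟩ := sum_cl_eq (x := z) (v := fun i => v (Sum.inl i)) (fun i => hv (Sum.inl i))
  obtain ⟨hz1', hz2'⟩ := sum_cl_eq (x := z') (v := fun i => v (Sum.inr i)) (fun i => hv (Sum.inr i))
  have hwv : ∀ i, ((w i : Pt r).rep : Fin (r + 1) → ℂ) ∈ D := fun i =>
    ⟨Fin.castAdd d i, by rw [Fin.append_left]; exact mem_clo (w i : Pt r).rep_nonzero⟩
  have hwv' : ∀ i, ((w' i : Pt r).rep : Fin (r + 1) → ℂ) ∈ D := fun i =>
    ⟨Fin.natAdd c i, by rw [Fin.append_right]; exact mem_clo (w' i : Pt r).rep_nonzero⟩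
  obtain ⟨-, hw2⟩ := sum_cl_eq (x := w) (v := fun i => (w i : Pt r).rep)
    (fun i => ⟨(w i : Pt r).rep_nonzero, Projectivization.mk_rep _⟩)
  obtain ⟨-, hw2'⟩ := sum_cl_eq (x := w') (v := fun i => (w' i : Pt r).rep)
    (fun i => ⟨(w' i : Pt r).rep_nonzero, Projectivization.mk_rep _⟩)
  have hcard : n + (b + d) = m + (a + c) := by
    refine deg_eq (X := X) (x := Fin.append z (Fin.append y w'))
      (y := Fin.append z' (Fin.append x w)) ?_
    rw [γ_append, γ_append, γ_append, γ_append]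
    have h1 : γ X z = γ X z' + (γ X x - γ X y + (γ X w - γ X w')) := by
      rw [← hsum]
      abel
    rw [h1]
    abel
  have hrel : RelD (cone X) D (cl X) (fun i => v (Sum.inl i)) (fun i => v (Sum.inr i)) ux
      uy := by
    refine ⟨hz1, hz1', hx1, hy1, c, d, _, _, hwv, hwv', hcard, ?_⟩
    rw [hz2, hz2', hx2, hy2, hw2, hw2']
    have h1 : γ X z = γ X z' + (γ X x - γ X y + (γ X w - γ X w')) := by
      rw [← hsum]
      abel
    rw [h1]
    abel
  have hmain := main_abs hc le_rfl hK hDspec hsub hK₀c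
    (fun n Z Y hZ hY hs => (rk_anti hK₁₀ _).trans (hpair n Z Y hZ hY hs))
    (hB.mono (le_adj_left _ _)) hrel
  have hcv : coords (fun i => v (Sum.inl i)) ∪ coords (fun i => v (Sum.inr i)) = coords v := by
    rw [← coords_sum_elim]
    congr 1
    funext i
    obtain i | i := i <;> rfl
  rw [hcv] at hmain
  have h1 := hvK K hKL
  have h2 : rk L (ratios p) + ((Fintype.card (Fin n ⊕ Fin m) : ℕ) : ℕ∞) ≤
      rk (adj K (coords ux ∪ coords uy)) (coords v) := by
    refine (hvK L le_rfl).trans (rk_anti (adj_le hKL ?_) _)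
    rintro e (⟨i, f, rfl⟩ | ⟨i, f, rfl⟩)
    · exact subset_adj _ _ (Or.inl (huxK i f))
    · exact subset_adj _ _ (Or.inr (huyK i f))
  rw [hratp] at h1 h2
  rw [Fintype.card_sum, Fintype.card_fin, Fintype.card_fin] at h1 h2
  have h3 := (add_le_add h1 h2).trans hmain
  have hf : (cycRatios z z').Finite := by
    rw [← hratp]
    have : ratios p = Set.range (fun q : (Fin n ⊕ Fin m) × Fin (r + 1) × Fin (r + 1) =>
        (p q.1).rep q.2.1 / (p q.1).rep q.2.2) := by
      ext e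
      constructor
      · rintro ⟨i, f, g, h⟩
        exact ⟨(i, f, g), h.symm⟩
      · rintro ⟨⟨i, f, g⟩, h⟩
        exact ⟨i, f, g, h.symm⟩
    rw [this]
    exact Set.finite_range _
  obtain ⟨t, ht⟩ := exists_nat K hf
  obtain ⟨e, he⟩ := exists_nat L hf
  rw [← ht, ← he] at h3
  rw [← ht, ← he]
  norm_cast at h3 ⊢
  omega

end Pool.Agent.H70.TD
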