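import Pool.Agent.H70.TD.Closure

/-!
# Specialisations of points of projective space: transcendence degrees, the case of equality
-/

set_option autoImplicit false

namespace Pool.Agent.H70.TD

open MvPolynomial Pool.Agent.Y148.OD Pool.Agent.H15.TD

/-- **A specialisation of the same transcendence degree is generic.** -/
theorem spec_eq {Ω : Type} [Field Ω] {σ : Type} {K : Subfield Ω} {a a' : σ → Ω}
    (h : ∀ P : MvPolynomial σ K, aeval a P = 0 → aeval a' P = 0) {M : ℕ}
    (ha : rk K (Set.range a) ≤ (M : ℕ∞)) (ha' : (M : ℕ∞) ≤ rk K (Set.range a'))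
    {P : MvPolynomial σ K} (hP : aeval a' P = 0) : aeval a P = 0 := by
  by_contra hPξ
  unfold rk at ha'
  obtain ⟨J, hJ, hJi, hJc⟩ := Matroid.le_eRk_iff.1 ha'
  obtain ⟨T, hT, hbij⟩ := Set.exists_subset_bijOn (a' ⁻¹' J) a'
  have himg : a' '' (a' ⁻¹' J) = J := Set.image_preimage_eq_of_subset hJ
  rw [himg] at hbij
  have hTv : AlgebraicIndependent K (fun i : T => a' i) := by
    have h5 : AlgebraicIndependent K (Subtype.val : J → Ω) := hJi
    exact h5.comp (fun i : T => ⟨a' i, hbij.mapsTo i.2⟩) (fun i j hij =>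
      Subtype.ext (hbij.injOn i.2 j.2 (congrArg Subtype.val hij)))
  have hTξ : AlgebraicIndependent K (fun i : T => a i) := by
    rw [algebraicIndependent_iff]
    intro p hp
    apply hTv.eq_zero_of_aeval_eq_zero
    have h5 : aeval a (rename (Subtype.val : T → σ) p) = 0 := by
      rw [aeval_rename]; exact hp
    have h6 := h _ h5
    rwa [aeval_rename] at h6
  set J' : Set Ω := Set.range (fun i : T => a i) with hJ'
  have hJ'i : (AlgebraicIndependent.matroid K Ω).Indep J' := hTξ.coe_range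
  have hJ's : J' ⊆ Set.range a := by
    rintro _ ⟨i, rfl⟩
    exact ⟨i, rfl⟩
  have hJ'c : J'.encard = M := by
    rw [← hJc, ← hbij.image_eq, hbij.injOn.encard_image, hJ', ← Set.image_univ,
      (hTξ.injective.injOn).encard_image, Set.encard_univ]
    rfl
  have hJ'f : J'.Finite := by
    rw [← Set.encard_lt_top_iff, hJ'c]
    exact ENat.natCast_lt_top M
  have hbasis : (AlgebraicIndependent.matroid K Ω).IsBasis J' (Set.range a) := by
    refine hJ'i.isBasis_of_eRk_ge hJ'f hJ's ?_ (Set.subset_univ _)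
    rw [hJ'i.eRk_eq_encard, hJ'c]
    exact ha
  -- the value is algebraic
  have hmem : aeval a P ∈ Algebra.adjoin K (Set.range a) := by
    rw [Algebra.adjoin_range_eq_range_aeval]
    exact ⟨P, rfl⟩
  have halg : IsAlgebraic (Algebra.adjoin K J') (aeval a P) := by
    rw [AlgebraicIndependent.isAlgebraic_adjoin_iff_of_matroid_isBasis hbasis]
    exact isAlgebraic_algebraMap (A := Ω) (⟨aeval a P, hmem⟩ : Algebra.adjoin K (Set.range a))
  obtain ⟨q, hq0, hq⟩ := halg.exists_nonzero_coeff_and_aeval_eq_zero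
    (mem_nonZeroDivisors_of_ne_zero hPξ)
  have hle : Algebra.adjoin K J' ≤ Algebra.adjoin K (Set.range a) := Algebra.adjoin_mono hJ's
  have hD : Polynomial.aeval (aeval a P) q.divX ∈ Algebra.adjoin K (Set.range a) := by
    rw [Polynomial.aeval_eq_sum_range]
    refine Subalgebra.sum_mem _ fun i _ => ?_
    rw [Subalgebra.smul_def, smul_eq_mul]
    exact Subalgebra.mul_mem _ (hle (q.divX.coeff i).2) (Subalgebra.pow_mem _ hmem i)
  rw [Algebra.adjoin_range_eq_range_aeval] at hD
  obtain ⟨D, hD⟩ := hD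
  have hadj : Algebra.adjoin K J' = (aeval (R := K) (fun i : T => a i)).range :=
    Algebra.adjoin_range_eq_range_aeval K (fun i : T => a i)
  have hadj' : ∀ x ∈ Algebra.adjoin K J', x ∈ (aeval (R := K) (fun i : T => a i)).range := by
    intro x hx
    rw [← hadj]
    exact hx
  obtain ⟨Q, hQ⟩ := hadj' _ (q.coeff 0).2
  have hrel : aeval a (rename (Subtype.val : T → σ) Q + P * D) = 0 := by
    rw [map_add, map_mul, aeval_rename]
    have e1 : aeval (a ∘ Subtype.val) Q = ((q.coeff 0 : Algebra.adjoin K J') : Ω) := hQ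
    have e2 : aeval a D = Polynomial.aeval (aeval a P) q.divX := hD
    rw [e1, e2]
    have h5 := congrArg (Polynomial.aeval (aeval a P)) q.divX_mul_X_add
    rw [hq, map_add, map_mul, Polynomial.aeval_X, Polynomial.aeval_C] at h5
    have e3 : algebraMap (Algebra.adjoin K J') Ω (q.coeff 0) =
      ((q.coeff 0 : Algebra.adjoin K J') : Ω) := rfl
    rw [e3] at h5
    rw [← h5]
    ring
  have h6 := h _ hrel
  rw [map_add, map_mul, hP, zero_mul, add_zero, aeval_rename] at h6
  have hQ0 : Q = 0 := hTv.eq_zero_of_aeval_eq_zero Q h6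
  rw [hQ0] at hQ
  apply hq0
  apply Subtype.ext
  rw [← hQ]
  exact map_zero _

/-- **Multiples.** If `v'` is a specialisation of `v`, all multiples `g' i • v' i` are a
specialisation of generic multiples `g i • v i`. -/
theorem spec_smul {Ω : Type} [Field Ω] {ι τ : Type} {K : Subfield Ω} {v v' : ι → τ → Ω}
    (h : ∀ P : MvPolynomial (ι × τ) K, aeval (fun p => v p.1 p.2) P = 0 →
      aeval (fun p => v' p.1 p.2) P = 0)
    {g : ι → Ω} (hg : AlgebraicIndependent (adj K (coords v)) g) (g' : ι → Ω)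
    {P : MvPolynomial (ι × τ) K} (hP : aeval (fun p => g p.1 * v p.1 p.2) P = 0) :
    aeval (fun p => g' p.1 * v' p.1 p.2) P = 0 := by
  set L := adj K (coords v) with hL
  have hKL : K ≤ L := le_adj_left _ _
  -- the generic multiple
  let Φ : MvPolynomial (ι × τ) K →+* MvPolynomial ι (MvPolynomial (ι × τ) K) :=
    eval₂Hom (C.comp C) fun p => X p.1 * C (X p)
  have hΦ : ∀ (u : ι → τ → Ω) (c : ι → Ω) (Q : MvPolynomial (ι × τ) K),
      eval₂ (aeval (fun p : ι × τ => u p.1 p.2) : MvPolynomial (ι × τ) K →ₐ[K] Ω).toRingHom c (Φ Q) =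
        aeval (fun p : ι × τ => c p.1 * u p.1 p.2) Q := by
    intro u c Q
    have h1 : (eval₂Hom (aeval (fun p : ι × τ => u p.1 p.2) :
        MvPolynomial (ι × τ) K →ₐ[K] Ω).toRingHom c).comp Φ =
        (aeval (fun p : ι × τ => c p.1 * u p.1 p.2) : MvPolynomial (ι × τ) K →ₐ[K] Ω).toRingHom := by
      refine MvPolynomial.ringHom_ext (fun a => ?_) fun p => ?_
      · simp [Φ]
      · simp [Φ]
    exact RingHom.congr_fun h1 Q
  -- the coefficients vanish at `v`
  let f : MvPolynomial (ι × τ) K →+* L :=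
    eval₂Hom (Subfield.inclusion hKL) fun p => ⟨v p.1 p.2, subset_adj _ _ ⟨p.1, p.2, rfl⟩⟩
  have hf : ∀ Q, ((f Q : L) : Ω) = aeval (fun p : ι × τ => v p.1 p.2) Q := by
    intro Q
    have h1 : L.subtype.comp f =
        (aeval (fun p : ι × τ => v p.1 p.2) : MvPolynomial (ι × τ) K →ₐ[K] Ω).toRingHom := by
      refine MvPolynomial.ringHom_ext (fun a => ?_) fun p => ?_
      · simp [f]
        rfl
      · simp [f]
    exact RingHom.congr_fun h1 Q
  have h2 : MvPolynomial.map f (Φ P) = 0 := by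
    apply hg.eq_zero_of_aeval_eq_zero
    rw [← hP, ← hΦ v g P, aeval_def, eval₂_map]
    congr 1
    refine RingHom.ext fun Q => ?_
    exact hf Q
  have h3 : ∀ d, aeval (fun p : ι × τ => v' p.1 p.2) (coeff d (Φ P)) = 0 := by
    intro d
    apply h
    rw [← hf]
    have h4 := congrArg (coeff d) h2
    rw [coeff_map, coeff_zero] at h4
    rw [h4]
    rfl
  rw [← hΦ v' g' P, eval₂_eq]
  refine Finset.sum_eq_zero fun d _ => ?_
  have h4 : (aeval (fun p : ι × τ => v' p.1 p.2) : MvPolynomial (ι × τ) K →ₐ[K] Ω).toRingHom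
      (coeff d (Φ P)) = 0 := h3 d
  rw [h4, zero_mul]

variable {r : ℕ}

/-- **Specialisations of families of points.** The transcendence degree does not increase, and if it
does not decrease the specialisation is generic. -/
theorem ratio_spec {ι : Type} [Fintype ι] {K : Subfield ℂ} (hK : Countable K) {p p' : ι → Pt r}
    {v v' : ι → Fin (r + 1) → ℂ} (hv : ∀ i, ∃ h : v i ≠ 0, Projectivization.mk ℂ (v i) h = p i)
    (hv' : ∀ i, ∃ h : v' i ≠ 0, Projectivization.mk ℂ (v' i) h = p' i)
    (h : ∀ P : MvPolynomial (ι × Fin (r + 1)) K, aeval (fun q => v q.1 q.2) P = 0 →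
      aeval (fun q => v' q.1 q.2) P = 0) :
    rk K (ratios p') ≤ rk K (ratios p) ∧ (rk K (ratios p) ≤ rk K (ratios p') →
      ∀ (l : Fin (r + 1) → K) (i : ι), ∑ a, (l a : ℂ) * v' i a = 0 → ∑ a, (l a : ℂ) * v i a = 0) := by
  classical
  have := uncountable_complex
  have hLc : Countable (adj K (coords v)) := countable_adj (countable_coords v)
  obtain ⟨g, hg⟩ := Pool.Agent.Y141.OD.exists_indep (adj K (coords v)) hLc ι
  have hg0 : ∀ i, g i ≠ 0 := fun i => hg.ne_zero i
  obtain ⟨v'', hv'', hr''⟩ := exists_generic p' hK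
  have hg' : ∀ i, ∃ c : ℂ, v'' i = fun a => c * v' i a := by
    intro i
    obtain ⟨h0, h1⟩ := hv'' i
    obtain ⟨h2, h3⟩ := hv' i
    have h4 : Projectivization.mk ℂ (v'' i) h0 = Projectivization.mk ℂ (v' i) h2 := by
      rw [h1, h3]
    obtain ⟨c, hc⟩ := (Projectivization.mk_eq_mk_iff ℂ _ _ h0 h2).mp h4
    refine ⟨(c : ℂ), ?_⟩
    rw [← hc]
    rfl
  choose g' hg' using hg'
  have hspec : ∀ P : MvPolynomial (ι × Fin (r + 1)) K,
      aeval (fun q : ι × Fin (r + 1) => g q.1 * v q.1 q.2) P = 0 →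
        aeval (fun q : ι × Fin (r + 1) => v'' q.1 q.2) P = 0 := by
    intro P hP
    have h1 := spec_smul h hg g' hP
    rw [← h1]
    congr 2
    funext q
    rw [hg']
  have e1 : coords (fun i a => g i * v i a) =
      Set.range fun q : ι × Fin (r + 1) => g q.1 * v q.1 q.2 := coords_eq_range _
  have e2 : coords v'' = Set.range fun q : ι × Fin (r + 1) => v'' q.1 q.2 := coords_eq_range _
  have hgv : ∀ i, ∃ h : (fun i a => g i * v i a : ι → Fin (r + 1) → ℂ) i ≠ 0,
      Projectivization.mk ℂ ((fun i a => g i * v i a : ι → Fin (r + 1) → ℂ) i) h = p i := by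
    intro i
    obtain ⟨h0, h1⟩ := hv i
    have h2 : g i • v i ≠ 0 := smul_ne_zero (hg0 i) h0
    refine ⟨h2, ?_⟩
    rw [← h1]
    exact mk_smul (v i) h0 _ (hg0 i) h2
  have h5 : rk K (coords v'') ≤ rk K (coords fun i a => g i * v i a) := by
    rw [e1, e2]
    exact Pool.Agent.Y141.OD.rk_le K K le_rfl _ _ hspec
  have h6 := rk_coords_le_ratios hgv K
  have h7 := hr'' K le_rfl
  have h8 : rk K (ratios p') + (Fintype.card ι : ℕ∞) ≤ rk K (ratios p) + (Fintype.card ι : ℕ∞) :=
    h7.trans (h5.trans h6)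
  have h9 : rk K (ratios p') ≤ rk K (ratios p) :=
    (ENat.add_le_add_iff_right (by simp)).mp h8
  refine ⟨h9, fun hle l i hl => ?_⟩
  have hfin : (coords fun i a => g i * v i a).Finite := finite_coords _
  obtain ⟨M, hM⟩ := exists_nat K hfin
  have h10 : (M : ℕ∞) ≤ rk K (coords v'') := by
    rw [hM]
    exact h6.trans ((add_le_add hle le_rfl).trans h7)
  set F : MvPolynomial (ι × Fin (r + 1)) K := ∑ a, C (l a) * X (i, a) with hF
  have hFe : ∀ u : ι → Fin (r + 1) → ℂ, aeval (fun q : ι × Fin (r + 1) => u q.1 q.2) F =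
      ∑ a, (l a : ℂ) * u i a := by
    intro u
    rw [hF, map_sum]
    refine Finset.sum_congr rfl fun a _ => ?_
    rw [map_mul, aeval_C, aeval_X]
    rfl
  have h11 : aeval (fun q : ι × Fin (r + 1) => g q.1 * v q.1 q.2) F = 0 := by
    refine spec_eq hspec (M := M) ?_ ?_ ?_
    · rw [← e1]
      exact hM.ge
    · rw [← e2]
      exact h10
    · rw [hFe]
      rw [hg' i]
      have : ∑ a, (l a : ℂ) * (g' i * v' i a) = g' i * ∑ a, (l a : ℂ) * v' i a := by
        rw [Finset.mul_sum]
        exact Finset.sum_congr rfl fun a _ => by ring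
      rw [this, hl, mul_zero]
  have h12 := hFe (fun i a => g i * v i a)
  rw [h11] at h12
  have h13 : ∑ a, (l a : ℂ) * (g i * v i a) = g i * ∑ a, (l a : ℂ) * v i a := by
    rw [Finset.mul_sum]
    exact Finset.sum_congr rfl fun a _ => by ring
  rw [h13] at h12
  exact (mul_eq_zero.mp h12.symm).resolve_left (hg0 i)

/-- a linear form over `K` which does not vanish at finitely many points -/
theorem exists_form {ι : Type} [Finite ι] (K : Subfield ℂ) {v : ι → Fin (r + 1) → ℂ}
    (hv : ∀ i, v i ≠ 0) : ∃ l : Fin (r + 1) → K, ∀ i, ∑ a, (l a : ℂ) * v i a ≠ 0 := by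
  classical
  have := Fintype.ofFinite ι
  set Q : ι → Polynomial ℂ := fun i => ∑ a : Fin (r + 1), Polynomial.C (v i a) *
    Polynomial.X ^ (a : ℕ) with hQ
  have hQ0 : ∀ i, Q i ≠ 0 := by
    intro i h0
    apply hv i
    funext a
    have h1 := congrArg (fun R : Polynomial ℂ => R.coeff (a : ℕ)) h0
    simp only [hQ, Polynomial.finsetSum_coeff, Polynomial.coeff_C_mul, Polynomial.coeff_X_pow,
      Polynomial.coeff_zero] at h1
    rw [Finset.sum_eq_single a] at h1
    · simpa using h1
    · intro b _ hb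
      rw [if_neg, mul_zero]
      intro h2
      exact hb (Fin.ext h2.symm)
    · intro h2
      exact absurd (Finset.mem_univ a) h2
  have hP : (∏ i, Q i) ≠ 0 := Finset.prod_ne_zero_iff.mpr fun i _ => hQ0 i
  obtain ⟨n, hn⟩ : ∃ n : ℕ, (∏ i, Q i).eval (n : ℂ) ≠ 0 := by
    by_contra hcon
    push Not at hcon
    apply hP
    refine Polynomial.eq_zero_of_infinite_isRoot _ ?_
    refine Set.Infinite.mono (s := Set.range fun n : ℕ => (n : ℂ)) ?_
      (Set.infinite_range_of_injective Nat.cast_injective)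
    rintro _ ⟨n, rfl⟩
    exact hcon n
  refine ⟨fun a => (n : K) ^ (a : ℕ), fun i h0 => ?_⟩
  rw [Polynomial.eval_prod, Finset.prod_ne_zero_iff] at hn
  apply hn i (Finset.mem_univ i)
  rw [hQ, Polynomial.eval_finsetSum, ← h0]
  refine Finset.sum_congr rfl fun a _ => ?_
  rw [Polynomial.eval_mul, Polynomial.eval_C, Polynomial.eval_pow, Polynomial.eval_X, mul_comm]
  push_cast
  rfl

end Pool.Agent.H70.TD
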