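import Pool.Agent.H70.TD.Copy

/-!
# The inequality with a bounded error
-/

set_option autoImplicit false

namespace Pool.Agent.H70.TD

open MvPolynomial Pool.Agent.Y148.OD

variable {Ω : Type} [Field Ω] {τ : Type} {A : Type} [AddCommGroup A]

theorem coords_sub_range {ι κ : Type} (s : κ → ι) (y : ι → τ → Ω) :
    coords (fun i => y (s i)) = Set.range fun p : κ × τ => y (s p.1) p.2 :=
  coords_eq_range _

/-- a vector with coordinates in `F` is equal to its copy -/
theorem copy_fixed {F : Subfield Ω} {σ : Type} {y y' : σ → Ω}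
    (h : ∀ P : MvPolynomial σ F, aeval y P = 0 ↔ aeval y' P = 0) {s : σ} (hs : y s ∈ F) :
    y' s = y s := by
  have h1 := (h (X s - C (⟨y s, hs⟩ : F))).mp (by
    rw [map_sub, aeval_X, aeval_C]
    exact sub_self _)
  rw [map_sub, aeval_X, aeval_C, sub_eq_zero] at h1
  exact h1

/-- **The inequality with a bounded error.** -/
theorem weak [IsAlgClosed Ω] [Uncountable Ω] [Fintype τ] {k K : Subfield Ω} {V D : Set (τ → Ω)}
    {cl : (τ → Ω) → A} (hc : Cls k V cl) (hk : k ≤ K) (hK : Countable K) {n m a b q : ℕ}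
    (hpair : ∀ Z Y : Fin (n + m) → τ → Ω, (∀ i, Z i ∈ V) → (∀ i, Y i ∈ V) →
      ∑ i, cl (Z i) = ∑ i, cl (Y i) → rk K (coords Z ∪ coords Y) ≤ ((4 * (n + m) : ℕ) : ℕ∞))
    (hB : Bdd K V D cl q) {z : Fin n → τ → Ω} {z' : Fin m → τ → Ω} {x : Fin a → τ → Ω}
    {y : Fin b → τ → Ω} (h : RelD V D cl z z' x y) :
    rk K (coords z ∪ coords z') + rk (adj K (coords x ∪ coords y)) (coords z ∪ coords z') ≤
      ((4 * (n + m) + 2 * q : ℕ) : ℕ∞) := by
  obtain ⟨hz, hz', hx, hy, c, d, w, w', hw, hw', hcard, hsum⟩ := h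
  obtain ⟨u, hu, hus, hur⟩ := hB (Fin c) w hw
  obtain ⟨u', hu', hus', hur'⟩ := hB (Fin d) w' hw'
  rw [← hus, ← hus'] at hsum
  set K₁ := adj K (coords x ∪ coords y) with hK₁
  set F := adj K₁ (coords u ∪ coords u') with hF
  set L := adj F (coords z ∪ coords z') with hL
  have hK₁c : Countable K₁ := countable_adj ((countable_coords x).union (countable_coords y))
  have hFc : Countable F := countable_adj ((countable_coords u).union (countable_coords u'))
  have hLc : Countable L := countable_adj ((countable_coords z).union (countable_coords z'))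
  have hKK₁ : K ≤ K₁ := le_adj_left _ _
  have hK₁F : K₁ ≤ F := le_adj_left _ _
  have hFL : F ≤ L := le_adj_left _ _
  have hxF : ∀ i e, x i e ∈ F := fun i e => hK₁F (subset_adj _ _ (Or.inl ⟨i, e, rfl⟩))
  have hyF : ∀ i e, y i e ∈ F := fun i e => hK₁F (subset_adj _ _ (Or.inr ⟨i, e, rfl⟩))
  have huF : ∀ i e, u i e ∈ F := fun i e => subset_adj _ _ (Or.inl ⟨i, e, rfl⟩)
  have huF' : ∀ i e, u' i e ∈ F := fun i e => subset_adj _ _ (Or.inr ⟨i, e, rfl⟩)
  set P : Fin n ⊕ (Fin b ⊕ Fin d) → τ → Ω := Sum.elim z (Sum.elim y u') with hP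
  set Q : Fin m ⊕ (Fin a ⊕ Fin c) → τ → Ω := Sum.elim z' (Sum.elim x u) with hQ
  have hPV : ∀ i, P i ∈ V := by
    rintro (i | i | i)
    · exact hz i
    · exact hy i
    · exact hu' i
  have hQV : ∀ i, Q i ∈ V := by
    rintro (i | i | i)
    · exact hz' i
    · exact hx i
    · exact hu i
  have hPQ : ∑ i, cl (P i) = ∑ i, cl (Q i) := by
    rw [Fintype.sum_sum_type, Fintype.sum_sum_type, Fintype.sum_sum_type, Fintype.sum_sum_type]
    simp only [hP, hQ, Sum.elim_inl, Sum.elim_inr]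
    exact hsum
  have hcd : Fintype.card (Fin n ⊕ (Fin b ⊕ Fin d)) = Fintype.card (Fin m ⊕ (Fin a ⊕ Fin c)) := by
    simp only [Fintype.card_sum, Fintype.card_fin]
    exact hcard
  obtain ⟨Y, hY1, hY2⟩ := generic_copy hFL hLc
    (fun p : ((Fin n ⊕ (Fin b ⊕ Fin d)) ⊕ (Fin m ⊕ (Fin a ⊕ Fin c))) × τ =>
      Sum.elim P Q p.1 p.2)
  set P' : Fin n ⊕ (Fin b ⊕ Fin d) → τ → Ω := fun i e => Y (Sum.inl i, e) with hP'
  set Q' : Fin m ⊕ (Fin a ⊕ Fin c) → τ → Ω := fun i e => Y (Sum.inr i, e) with hQ'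
  have hYPQ : Y = fun p => Sum.elim P' Q' p.1 p.2 := by
    funext p
    obtain ⟨i | i, e⟩ := p <;> rfl
  have hcopy : ∀ G : MvPolynomial (((Fin n ⊕ (Fin b ⊕ Fin d)) ⊕ (Fin m ⊕ (Fin a ⊕ Fin c))) × τ) F,
      aeval (fun p => Sum.elim P Q p.1 p.2) G = 0 ↔
        aeval (fun p => Sum.elim P' Q' p.1 p.2) G = 0 := by
    intro G
    rw [← hYPQ]
    exact hY1 G
  obtain ⟨hP'V, hQ'V, hP'Q'⟩ := rel_copy hc (hk.trans (hKK₁.trans hK₁F)) hcd hPV hQV hPQ hcopy
  have hfy : ∀ i, P' (Sum.inr (Sum.inl i)) = y i := fun i => funext fun e =>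
    copy_fixed hY1 (s := (Sum.inl (Sum.inr (Sum.inl i)), e)) (hyF i e)
  have hfu' : ∀ i, P' (Sum.inr (Sum.inr i)) = u' i := fun i => funext fun e =>
    copy_fixed hY1 (s := (Sum.inl (Sum.inr (Sum.inr i)), e)) (huF' i e)
  have hfx : ∀ i, Q' (Sum.inr (Sum.inl i)) = x i := fun i => funext fun e =>
    copy_fixed hY1 (s := (Sum.inr (Sum.inr (Sum.inl i)), e)) (hxF i e)
  have hfu : ∀ i, Q' (Sum.inr (Sum.inr i)) = u i := fun i => funext fun e =>
    copy_fixed hY1 (s := (Sum.inr (Sum.inr (Sum.inr i)), e)) (huF i e)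
  set z₁ : Fin n → τ → Ω := fun i => P' (Sum.inl i) with hz₁
  set z₁' : Fin m → τ → Ω := fun i => Q' (Sum.inl i) with hz₁'
  have hsum' : ∑ i, cl (z₁ i) + (∑ i, cl (y i) + ∑ i, cl (u' i)) =
      ∑ i, cl (z₁' i) + (∑ i, cl (x i) + ∑ i, cl (u i)) := by
    have h1 := hP'Q'
    rw [Fintype.sum_sum_type, Fintype.sum_sum_type, Fintype.sum_sum_type,
      Fintype.sum_sum_type] at h1
    simp only [hfy, hfu', hfx, hfu] at h1
    exact h1
  have hZY : ∑ i, cl (Fin.append z z₁' i) = ∑ i, cl (Fin.append z₁ z' i) := by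
    rw [sum_append, sum_append]
    have h1 : ∑ i, cl (z i) + ∑ i, cl (z₁' i) + (∑ i, cl (x i) + ∑ i, cl (u i)) =
        ∑ i, cl (z₁ i) + ∑ i, cl (z' i) + (∑ i, cl (x i) + ∑ i, cl (u i)) := by
      calc _ = ∑ i, cl (z i) + (∑ i, cl (z₁' i) + (∑ i, cl (x i) + ∑ i, cl (u i))) := by abel
        _ = ∑ i, cl (z i) + (∑ i, cl (z₁ i) + (∑ i, cl (y i) + ∑ i, cl (u' i))) := by
          rw [hsum']
        _ = ∑ i, cl (z₁ i) + (∑ i, cl (z i) + (∑ i, cl (y i) + ∑ i, cl (u' i))) := by abel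
        _ = ∑ i, cl (z₁ i) + (∑ i, cl (z' i) + (∑ i, cl (x i) + ∑ i, cl (u i))) := by rw [hsum]
        _ = _ := by abel
    exact add_right_cancel h1
  have hb := hpair _ _ (append_mem hz fun i => hQ'V _) (append_mem (fun i => hP'V _) hz') hZY
  rw [coords_append, coords_append] at hb
  -- the rank of the copy
  have hr1 : rk L (coords z₁ ∪ coords z₁') = rk F (coords z ∪ coords z') := by
    have h1 := (hY2 ((Fin n ⊕ Fin m) × τ) (fun p => (Sum.map Sum.inl Sum.inl p.1, p.2))).1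
    have e1 : coords z₁ ∪ coords z₁' = Set.range fun p : (Fin n ⊕ Fin m) × τ =>
        Y (Sum.map Sum.inl Sum.inl p.1, p.2) := by
      rw [← coords_sum_elim, coords_eq_range]
      congr 1
      funext p
      obtain ⟨i | i, e⟩ := p <;> rfl
    have e2 : coords z ∪ coords z' = Set.range fun p : (Fin n ⊕ Fin m) × τ =>
        (fun p : ((Fin n ⊕ (Fin b ⊕ Fin d)) ⊕ (Fin m ⊕ (Fin a ⊕ Fin c))) × τ =>
          Sum.elim P Q p.1 p.2) (Sum.map Sum.inl Sum.inl p.1, p.2) := by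
      rw [← coords_sum_elim, coords_eq_range]
      congr 1
      funext p
      obtain ⟨i | i, e⟩ := p <;> rfl
    rw [e1, e2]
    exact h1
  have hr2 : rk K (coords z ∪ coords z') + rk F (coords z ∪ coords z') ≤
      ((4 * (n + m) : ℕ) : ℕ∞) := by
    refine le_trans ?_ hb
    have e1 : coords z ∪ coords z₁' ∪ (coords z₁ ∪ coords z') =
        (coords z ∪ coords z') ∪ (coords z₁ ∪ coords z₁') := by
      ext v
      simp only [Set.mem_union]
      tauto
    have e2 : rk L (coords z₁ ∪ coords z₁') ≤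
        rk (adj K (coords z ∪ coords z')) (coords z₁ ∪ coords z₁') :=
      rk_anti (adj_le ((hKK₁.trans hK₁F).trans hFL) (subset_adj _ _)) _
    rw [e1, rk_adj_union K (coords z ∪ coords z'), ← hr1]
    exact add_le_add le_rfl e2
  have hr3 : rk K₁ (coords z ∪ coords z') ≤ rk F (coords z ∪ coords z') + ((2 * q : ℕ) : ℕ∞) := by
    calc rk K₁ (coords z ∪ coords z') ≤ rk K₁ ((coords u ∪ coords u') ∪ (coords z ∪ coords z')) :=
          rk_mono _ Set.subset_union_right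
      _ = rk K₁ (coords u ∪ coords u') + rk F (coords z ∪ coords z') := rk_adj_union _ _ _
      _ ≤ ((2 * q : ℕ) : ℕ∞) + rk F (coords z ∪ coords z') := by
          refine add_le_add ?_ le_rfl
          refine (rk_anti hKK₁ _).trans ((rk_union_le _ _ _).trans ((add_le_add hur hur').trans ?_))
          exact_mod_cast (by omega : q + q ≤ 2 * q)
      _ = _ := add_comm _ _
  calc _ ≤ rk K (coords z ∪ coords z') + (rk F (coords z ∪ coords z') + ((2 * q : ℕ) : ℕ∞)) :=
        add_le_add le_rfl hr3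
    _ = rk K (coords z ∪ coords z') + rk F (coords z ∪ coords z') + ((2 * q : ℕ) : ℕ∞) := by
        rw [add_assoc]
    _ ≤ ((4 * (n + m) : ℕ) : ℕ∞) + ((2 * q : ℕ) : ℕ∞) := add_le_add hr2 le_rfl
    _ = _ := by push_cast; ring

end Pool.Agent.H70.TD
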